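import Pool.Agent.Lib.MP_361a6f_ag.FL.PT0.Inputs
import Pool.Agent.Lib.MP_361a6f_ag.FL.K0.Endo
import Pool.Agent.Lib.MP_361a6f_ag.FL.B.AbV

/-!
# The old hypotheses follow from the new ones
-/

open CategoryTheory AlgebraicGeometry MonoidalCategory CartesianMonoidalCategory

universe u v w w'

set_option autoImplicit false
set_option linter.unusedSectionVars false

namespace Pool.Agent.Lib.MP_361a6f_ag.FL.PT0

open Pool.Agent.Lib.MP_361a6f_ag.H3 Pool.Agent.Lib.MP_361a6f_ag.SQ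
  Pool.Agent.Lib.MP_361a6f_ag.PP Pool.Agent.Lib.MP_361a6f_ag.FL.E

section law

variable {k : Type u} [Field k] {W : CohomologyData.{u, 0, w} k ℂ} {𝒱 : VarietyClass k}
  (hW : IsWeilCohomology W 𝒱) {X : Sch k} {g : ℕ} (hX : 𝒱.mem X g)

include hW hX in
/-- `Law` from `EQ.Group` -/
theorem law_of_group (h0 : ∀ x, W.Deg X 0 x → ∃ c, x = W.scal c 1) (hG : EQ.Group X) :
    Nonempty (PT.Law W X) := by
  obtain ⟨m, e, h1, h2, h3⟩ := hG
  have hm : ∀ v ∈ W.gr X 1, W.pull m v = W.pull (fst X X) v + W.pull (snd X X) v :=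
    fun v hv => AbV.pull_m hW hX h0 h1 h2 hv
  have h3' : IsIso (lift (fst X X) m) := h3
  have e1 : inv (lift (fst X X) m) ≫ fst X X = fst X X := by
    rw [IsIso.inv_comp_eq, lift_fst]
  have e2 : inv (lift (fst X X) m) ≫ m = snd X X := by
    rw [IsIso.inv_comp_eq, lift_snd]
  refine ⟨⟨m, e, hm, fun v hv => hW.top_gr 𝒱.point (hW.pull_gr 𝒱.point hX e hv) (by omega), 1,
    one_pos, lift (𝟙 X) (toUnit X ≫ e) ≫ inv (lift (fst X X) m) ≫ snd X X, fun v hv => ?_⟩⟩
  have h5 : W.pull (inv (lift (fst X X) m) ≫ snd X X) v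
      = W.pull (snd X X) v - W.pull (fst X X) v := by
    refine eq_sub_of_add_eq' (Eq.symm ?_)
    calc W.pull (snd X X) v = W.pull (inv (lift (fst X X) m) ≫ m) v := by rw [e2]
      _ = W.pull (inv (lift (fst X X) m)) (W.pull m v) := W.pull_comp _ _ _
      _ = _ := by rw [hm v hv, map_add, ← W.pull_comp, ← W.pull_comp, e1]
  rw [W.pull_comp, h5, map_sub, ← W.pull_comp, ← W.pull_comp, lift_fst, lift_snd, W.pull_id,
    AbV.pull_const hW hX e hv, zero_sub, Nat.cast_one, one_smul]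

end law

/-- **Tate's theorem, the Hodge index theorem and the endomorphisms** -/
theorem inputs : InputsStatement.{u, v, w, w'} := by
  intro k _ W 𝒱 hW k' _ W' 𝒱' hW' D hB hI
  rcases hI with hS | ⟨hT, hH, hE⟩
  · have h : EQ.HypS 𝒱 𝒱' D :=
      { mem := hB.mem
        conn := hB.conn
        unital := hB.unital
        div := hB.div
        mem' := hB.mem'
        spec := hB.spec
        pos := hB.pos
        frob := hB.frob
        simple := hS
        ratio := hB.ratio }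
    have h' := K0.hypS W 𝒱 hW W' 𝒱' hW' D h
    refine ⟨h', fun hG z hz => ?_⟩
    obtain ⟨c⟩ := Hst.exists_core_hyp hW h'
    have hA' : AbelianType W' D.X' D.g :=
      K0.spc_abelianType (spcOf h.spec D.ξ) hW hW' h.mem h.mem' (Hst.abelianType hW h')
    have hq : (((D.q : ℚ) : ℂ)) = (D.q : ℂ) := by norm_cast
    obtain ⟨Lw⟩ := law_of_group hW' h.mem' (conn_hyp hW hW' h') hG
    obtain ⟨N, f, hN, hf⟩ := K0.endo (c.host hW h.mem h.div.1) (spcOf h.spec D.ξ) hW' h.mem' D.F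
      h.pos h.conn h.div (pull_xi h') (fun P l z hz => by
        rw [hq]
        exact h.frob P l z hz) hA' h.simple Lw z hz
    exact ⟨N, f, hN, fun x hx => hf x hx⟩
  · exact ⟨
      { mem := hB.mem
        conn := hB.conn
        unital := hB.unital
        div := hB.div
        mem' := hB.mem'
        spec := hB.spec
        pos := hB.pos
        frob := fun P l z hz => hB.frob P l _ (hB.spec.alg P l z hz)
        ratio := hB.ratio
        tate := hT
        index := hH }, fun _ => hE⟩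

variable {k : Type u} [Field k] {k' : Type v} [Field k'] {W : CohomologyData.{u, 0, w} k ℂ}
  {𝒱 : VarietyClass k} {W' : CohomologyData.{v, 0, w'} k' ℂ} {𝒱' : VarietyClass k'}
  (hW : IsWeilCohomology W 𝒱) (hW' : IsWeilCohomology W' 𝒱') {D : EQ.Data W W'}
  (hB : EQ.Base 𝒱 𝒱' D) (hI : EQ.Inputs W' D.g D.q D.F (D.s (.leaf 0) D.ξ))

include hW hW' hB hI in
theorem hyp_of_inputs : EQ.Hyp 𝒱 𝒱' D := (inputs W 𝒱 hW W' 𝒱' hW' D hB hI).1

include hW hW' hB hI in
theorem endo_of_inputs (hE : EQ.Effective W' D.X' D.g (D.s (.leaf 0) D.ξ)) :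
    ∀ z, W'.IsAlg (D.X'.prod D.X') D.g z → ∃ (n : ℕ) (f : Sch.Mor D.X' D.X'), 0 < n ∧
      ∀ x, W'.Deg D.X' 1 x → W'.pb f x = W'.scal (n : ℂ) (EQ.act W' z x) :=
  (inputs W 𝒱 hW W' 𝒱' hW' D hB hI).2 hE.group

end Pool.Agent.Lib.MP_361a6f_ag.FL.PT0
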