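import Pool.Agent.Lib.MP_361a6f_ag.FL.PT0.Fin
import Pool.Agent.Lib.MP_361a6f_ag.FL.PT0.InputsP

/-!
# Theorem PT0 from the hypotheses of the final texts
-/

open CategoryTheory AlgebraicGeometry MonoidalCategory CartesianMonoidalCategory

universe u v w w'

set_option autoImplicit false
set_option linter.unusedSectionVars false

namespace Pool.Agent.Lib.MP_361a6f_ag.FL.PT0

open Pool.Agent.Lib.MP_361a6f_ag.H3 Pool.Agent.Lib.MP_361a6f_ag.SQ
  Pool.Agent.Lib.MP_361a6f_ag.PP Pool.Agent.Lib.MP_361a6f_ag.FL.E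
  Pool.Agent.Lib.MP_361a6f_ag.FL.E.QS Pool.Agent.Lib.MP_361a6f_ag.FL.PT

variable {k : Type u} [Field k] {k' : Type v} [Field k'] {W : CohomologyData.{u, 0, w} k ℂ}
  {𝒱 : VarietyClass k} {W' : CohomologyData.{v, 0, w'} k' ℂ} {𝒱' : VarietyClass k'}
  (hW : IsWeilCohomology W 𝒱) (hW' : IsWeilCohomology W' 𝒱') {D : EQ.Data W W'}
  (hB : EQ.Base 𝒱 𝒱' D) (hI : EQ.Inputs W' D.g D.q D.F (D.s (.leaf 0) D.ξ))
  (hE : EQ.Effective W' D.X' D.g (D.s (.leaf 0) D.ξ))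

include hW hW' hB hI hE in
/-- `Q1` modulo numerical equivalence for everything that is generated by the classes of
codimension at most two. -/
theorem pp1 (P : Prd 1) (η : W.coh (EQ.pw D.X P)) (hη : IsPol W (fun _ => D.ξ) P η) (j : ℕ)
    (z : W.coh (EQ.pw D.X P)) (hz : EQ.Made2 W D.X D.g P j z)
    (hj : 2 * j ≤ P.dim fun _ => D.g)
    (hp : EQ.NumTrivial W (EQ.pw D.X P) (W.cup (η ^ ((P.dim fun _ => D.g) - 2 * j + 1)) z))
    (hn : ¬ EQ.NumTrivial W (EQ.pw D.X P) z) :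
    RatPos ((-1) ^ j * W.Tr (W.cup (η ^ ((P.dim fun _ => D.g) - 2 * j)) (W.cup z z))) :=
  pp0 hW hW' (hyp_of_inputs hW hW' hB hI) hE (endo_of_inputs hW hW' hB hI hE) P η hη j z hz hj
    hp hn

include hI hE in
/-- `ψ` is positive semidefinite on the real span of the algebraic tensors of length four of the
reduction. -/
theorem four1 (c : Hst.Core W D.X D.g D.ξ) (u : Ten (Sub c.D (0, 1)) 4)
    (hu : u ∈ Submodule.span ℝ
      {u | At1 (hstY hW hW' (hyp_of_inputs hW hW' hB hI) c) 4 u}) :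
    ∃ r : ℝ, 0 ≤ r ∧ psiT (subD c.D (0, 1)) u u = (r : ℂ) :=
  four0 hW hW' (hyp_of_inputs hW hW' hB hI) hE (endo_of_inputs hW hW' hB hI hE) c u hu

end Pool.Agent.Lib.MP_361a6f_ag.FL.PT0
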