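import Pool.Agent.Lib.MP_361a6f_ag.FL.PT0.Stat

/-!
# Theorem PT0: division
-/

open CategoryTheory AlgebraicGeometry MonoidalCategory CartesianMonoidalCategory

universe u w

set_option autoImplicit false

namespace Pool.Agent.Lib.MP_361a6f_ag.FL.PT0

open Pool.Agent.Lib.MP_361a6f_ag.H3 Pool.Agent.Lib.MP_361a6f_ag.SQ

variable {k : Type u} [Field k]

/-- a law with a unit and a division -/
structure Dv (B : Sch k) where
  m : B ⊗ B ⟶ B
  e : 𝟙_ (Sch k) ⟶ B
  δ : B ⊗ B ⟶ B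
  unit : lift (𝟙 B) (toUnit B ≫ e) ≫ m = 𝟙 B
  unit' : lift (toUnit B ≫ e) (𝟙 B) ≫ m = 𝟙 B
  md : lift (fst B B) m ≫ δ = snd B B
  dm : lift (fst B B) δ ≫ m = snd B B

theorem exists_dv {B : Sch k} (h : EQ.Group B) : Nonempty (Dv B) := by
  obtain ⟨m, e, h1, h2, h3⟩ := h
  have h3' : IsIso (lift (fst B B) m) := h3
  have e1 : lift (fst B B) m ≫ fst B B = fst B B := lift_fst _ _
  have e2 : inv (lift (fst B B) m) ≫ fst B B = fst B B := by
    rw [IsIso.inv_comp_eq, e1]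
  refine ⟨⟨m, e, inv (lift (fst B B) m) ≫ snd B B, h2, h1, ?_, ?_⟩⟩
  · rw [IsIso.hom_inv_id_assoc]
  · have e3 : lift (fst B B) (inv (lift (fst B B) m) ≫ snd B B) = inv (lift (fst B B) m) := by
      ext
      · rw [lift_fst, e2]
      · rw [lift_snd]
    rw [e3, IsIso.inv_comp_eq, lift_snd]

namespace Dv

variable {B B' : Sch k} (L : Dv B) (L' : Dv B')

theorem mul_div {Z : Sch k} (a b : Z ⟶ B) : lift a (lift a b ≫ L.m) ≫ L.δ = b := by
  have h : lift a (lift a b ≫ L.m) = lift a b ≫ lift (fst B B) L.m := by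
    ext
    · simp
    · simp
  rw [h, Category.assoc, L.md, lift_snd]

theorem div_mul {Z : Sch k} (a b : Z ⟶ B) : lift a (lift a b ≫ L.δ) ≫ L.m = b := by
  have h : lift a (lift a b ≫ L.δ) = lift a b ≫ lift (fst B B) L.δ := by
    ext
    · simp
    · simp
  rw [h, Category.assoc, L.dm, lift_snd]

theorem mul_unit {Z : Sch k} (a : Z ⟶ B) : lift a (toUnit Z ≫ L.e) ≫ L.m = a := by
  have h : lift a (toUnit Z ≫ L.e) = a ≫ lift (𝟙 B) (toUnit B ≫ L.e) := by
    ext
    · simp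
    · simp
  rw [h, Category.assoc, L.unit, Category.comp_id]

theorem unit_mul {Z : Sch k} (a : Z ⟶ B) : lift (toUnit Z ≫ L.e) a ≫ L.m = a := by
  have h : lift (toUnit Z ≫ L.e) a = a ≫ lift (toUnit B ≫ L.e) (𝟙 B) := by
    ext
    · simp
    · simp
  rw [h, Category.assoc, L.unit', Category.comp_id]

/-- the product of two laws -/
noncomputable def prod : Dv (B ⊗ B') where
  m := lift (lift (fst (B ⊗ B') (B ⊗ B') ≫ fst B B') (snd (B ⊗ B') (B ⊗ B') ≫ fst B B') ≫ L.m)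
    (lift (fst (B ⊗ B') (B ⊗ B') ≫ snd B B') (snd (B ⊗ B') (B ⊗ B') ≫ snd B B') ≫ L'.m)
  e := lift L.e L'.e
  δ := lift (lift (fst (B ⊗ B') (B ⊗ B') ≫ fst B B') (snd (B ⊗ B') (B ⊗ B') ≫ fst B B') ≫ L.δ)
    (lift (fst (B ⊗ B') (B ⊗ B') ≫ snd B B') (snd (B ⊗ B') (B ⊗ B') ≫ snd B B') ≫ L'.δ)
  unit := by
    ext
    · have h := L.mul_unit (fst B B')
      simpa [comp_lift_assoc, comp_lift] using h
    · have h := L'.mul_unit (snd B B')
      simpa [comp_lift_assoc, comp_lift] using h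
  unit' := by
    ext
    · have h := L.unit_mul (fst B B')
      simpa [comp_lift_assoc, comp_lift] using h
    · have h := L'.unit_mul (snd B B')
      simpa [comp_lift_assoc, comp_lift] using h
  md := by
    ext
    · have h := L.mul_div (fst (B ⊗ B') (B ⊗ B') ≫ fst B B') (snd (B ⊗ B') (B ⊗ B') ≫ fst B B')
      simpa [comp_lift_assoc, comp_lift] using h
    · have h := L'.mul_div (fst (B ⊗ B') (B ⊗ B') ≫ snd B B') (snd (B ⊗ B') (B ⊗ B') ≫ snd B B')
      simpa [comp_lift_assoc, comp_lift] using h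
  dm := by
    ext
    · have h := L.div_mul (fst (B ⊗ B') (B ⊗ B') ≫ fst B B') (snd (B ⊗ B') (B ⊗ B') ≫ fst B B')
      simpa [comp_lift_assoc, comp_lift] using h
    · have h := L'.div_mul (fst (B ⊗ B') (B ⊗ B') ≫ snd B B') (snd (B ⊗ B') (B ⊗ B') ≫ snd B B')
      simpa [comp_lift_assoc, comp_lift] using h

/-- the law on a power -/
noncomputable def pw {X : Sch k} (L : Dv X) : (P : Prd 1) → Dv (EQ.pw X P)
  | .leaf _ => L
  | .prod P Q => (pw L P).prod (pw L Q)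

/-- the shear `(a, b) ↦ (a, φ(a) b)` -/
noncomputable def shear {D : Sch k} (φ : D ⟶ B) : D ⊗ B ≅ D ⊗ B where
  hom := lift (fst D B) (lift (fst D B ≫ φ) (snd D B) ≫ L.m)
  inv := lift (fst D B) (lift (fst D B ≫ φ) (snd D B) ≫ L.δ)
  hom_inv_id := by
    ext
    · simp
    · have h := L.mul_div (fst D B ≫ φ) (snd D B)
      simpa [comp_lift_assoc, comp_lift] using h
  inv_hom_id := by
    ext
    · simp
    · have h := L.div_mul (fst D B ≫ φ) (snd D B)
      simpa [comp_lift_assoc, comp_lift] using h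

end Dv

end Pool.Agent.Lib.MP_361a6f_ag.FL.PT0
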