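import Pool.Agent.Lib.MP_361a6f_ag.FL.PT.Stat

/-!
# Codimension two without general position: the hypotheses on effective cycles
-/

open CategoryTheory AlgebraicGeometry MonoidalCategory CartesianMonoidalCategory

universe u v w w'

namespace Pool.Agent.Lib.MP_361a6f_ag.FL

open Pool.Agent.Lib.MP_361a6f_ag.H3 Pool.Agent.Lib.MP_361a6f_ag.SQ

/-- `Y` has a morphism `Y × Y → Y`, `(x, y) ↦ x y`, with a two-sided unit, such that
`(x, y) ↦ (x, x y)` is an isomorphism of `Y × Y`, for instance the group law of an abelian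
variety. -/
def EQ.Group {k : Type u} [Field k] (Y : Sch k) : Prop :=
  ∃ (m : Sch.Mor (Y.prod Y) Y) (e : Sch.Mor (Sch.point k) Y),
    lift (toUnit Y ≫ e) (𝟙 Y) ≫ m = 𝟙 Y ∧ lift (𝟙 Y) (toUnit Y ≫ e) ≫ m = 𝟙 Y ∧
      IsIso (lift (Sch.pr₁ Y Y) m)

/-- `Y` is a group, of dimension `g`. The cycle map has its usual properties on the powers of `Y`:
`1` is effective (the class of the whole variety), exterior products of effective classes are
effective (`cl (Z × Z') = cl Z × cl Z'`), and the push-forward of an effective class of relative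
dimension `0` is a multiple `q ≥ 0` of `1` (the degree of a cycle over a variety). Some multiple of
`θ` is effective. -/
structure EQ.Effective {k : Type u} [Field k] (W : CohomologyData.{u, 0, w} k ℂ) (Y : Sch k) (g : ℕ)
    (θ : W.coh Y) : Prop where
  group : EQ.Group Y
  one : ∀ P : Prd 1, (1 : W.coh (EQ.pw Y P)) ∈ EQ.eff W (EQ.pw Y P) 0
  ext : ∀ (P Q : Prd 1) (i j : ℕ) (x : W.coh (EQ.pw Y P)) (y : W.coh (EQ.pw Y Q)),
    x ∈ EQ.eff W (EQ.pw Y P) i → y ∈ EQ.eff W (EQ.pw Y Q) j →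
    W.ext x y ∈ EQ.eff W ((EQ.pw Y P).prod (EQ.pw Y Q)) (i + j)
  degree : ∀ (P Q : Prd 1) (f : Sch.Mor (EQ.pw Y P) (EQ.pw Y Q)) (j : ℕ) (x : W.coh (EQ.pw Y P)),
    x ∈ EQ.eff W (EQ.pw Y P) j → (j + Q.dim fun _ => g) = (P.dim fun _ => g) →
    ∃ q : ℚ, 0 ≤ q ∧ W.pf f x = W.scal (q : ℂ) 1
  divisor : ∃ N : ℕ, 0 < N ∧ W.scal (N : ℂ) θ ∈ EQ.eff W Y 1

end Pool.Agent.Lib.MP_361a6f_ag.FL
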