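import Pool.Agent.Lib.MP_361a6f_ag.FL.PT.B3f
import Pool.Agent.Lib.MP_361a6f_ag.FL.PT0.Stat

/-!
# Theorem PT0: the rows
-/

open CategoryTheory AlgebraicGeometry MonoidalCategory CartesianMonoidalCategory

universe u w

set_option autoImplicit false

namespace Pool.Agent.Lib.MP_361a6f_ag.FL.PT0

open Pool.Agent.Lib.MP_361a6f_ag.H3 Pool.Agent.Lib.MP_361a6f_ag.FL.PT

noncomputable section

/-- the facts on the sets `E Z j` that are used -/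
structure Eff0 {k : Type u} [Field k] (W : CohomologyData.{u, 0, w} k ℂ) (X : Sch k) (g : ℕ)
    (ξ : W.coh X) (E : ∀ Z : Sch k, ℕ → Set (W.coh Z)) : Prop where
  mulY : ∀ i j x y, x ∈ E (Y4 X) i → y ∈ E (Y4 X) j → x * y ∈ E (Y4 X) (i + j)
  mulZ : ∀ i j x y, x ∈ E (Y4 X ⊗ Y4 X) i → y ∈ E (Y4 X ⊗ Y4 X) j →
    x * y ∈ E (Y4 X ⊗ Y4 X) (i + j)
  pullY : ∀ (f : Y4 X ⟶ Y4 X) j y, y ∈ E (Y4 X) j → W.pull f y ∈ E (Y4 X) j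
  pullZ : ∀ (f : Y4 X ⊗ Y4 X ⟶ Y4 X) j y, y ∈ E (Y4 X) j → W.pull f y ∈ E (Y4 X ⊗ Y4 X) j
  push : ∀ j x, x ∈ E (Y4 X ⊗ Y4 X) (j + 4 * g) → W.push (fst (Y4 X) (Y4 X)) x ∈ E (Y4 X) j
  tr : ∀ x ∈ E (Y4 X) (4 * g), ∃ r : ℝ, 0 ≤ r ∧ W.tr (Y4 X) x = (r : ℂ)
  one : (1 : W.coh (Y4 X)) ∈ E (Y4 X) 0
  xi : ∀ i, W.pull (pr4 X i) ξ ∈ Bip (E (Y4 X) 1)
  alg : ∀ j, ∀ x ∈ E (Y4 X) j, x ∈ W.gr (Y4 X) (2 * j)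
  gen : ∀ j x, x ∈ W.alg (Y4 X) j → ∃ a ∈ E (Y4 X) j, ∃ b ∈ E (Y4 X) j, x = a - b

/-- Row START0. -/
def Start0Statement : Prop :=
  ∀ {k : Type u} [Field k] {W : CohomologyData.{u, 0, w} k ℂ} {𝒱 : VarietyClass k}
    (_ : IsWeilCohomology W 𝒱) {X : Sch k} {g : ℕ} (_ : 𝒱.mem X g) (_ : 0 < g)
    (_ : Law W X) {ξ : W.coh X} (_ : ξ ∈ W.alg X 1)
    (_ : ∀ x : W.coh X, x ∈ Algebra.adjoin ℂ (W.gr X 1 : Set (W.coh X)))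
    {E : ∀ Z : Sch k, ℕ → Set (W.coh Z)} (_ : Eff0 W X g ξ E) {J : Type} [Fintype J]
    [DecidableEq J] (F : Fr W X g ξ J)
    (_ : ∀ v ∈ W.gr X 1, v ∈ Submodule.span ℂ (Set.range F.f)) (w : Fin 4 → J) (a b : ℂ),
    a • (W.pull (pr4 X 0) (F.f (w 0)) * W.pull (pr4 X 1) (F.f (w 1)) *
        W.pull (pr4 X 2) (F.f (w 2)) * W.pull (pr4 X 3) (F.f (w 3))) +
      b • (W.pull (pr4 X 0) (F.f (F.τ (w 0))) * W.pull (pr4 X 1) (F.f (F.τ (w 1))) *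
        W.pull (pr4 X 2) (F.f (F.τ (w 2))) * W.pull (pr4 X 3) (F.f (F.τ (w 3)))) ∈
      Submodule.span ℝ (W.alg (Y4 X) 2 : Set (W.coh (Y4 X))) →
    ∃ N : ℝ, 0 < N ∧ ecl (B3.vl F w) (B3.Vl F w) (N : ℂ) a (b * ∏ i, F.s (w i)) ∈
      Bip (E (Y4 X) 2)

/-- Row B30. -/
def B30Statement : Prop :=
  RowA1.{w} → RowA2.{w} →
  ∀ {k : Type u} [Field k] {W : CohomologyData.{u, 0, w} k ℂ} {𝒱 : VarietyClass k}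
    (_ : IsWeilCohomology W 𝒱) {X : Sch k} {g : ℕ} (_ : 𝒱.mem X g) (_ : 0 < g)
    (_ : Law W X) {ξ : W.coh X} (_ : ξ ∈ W.alg X 1)
    (_ : ∀ x : W.coh X, x ∈ Algebra.adjoin ℂ (W.gr X 1 : Set (W.coh X)))
    {E : ∀ Z : Sch k, ℕ → Set (W.coh Z)} (_ : Eff0 W X g ξ E) {J : Type} [Fintype J]
    [DecidableEq J] (F : Fr W X g ξ J)
    (_ : ∀ v ∈ W.gr X 1, v ∈ Submodule.span ℂ (Set.range F.f)) (w : Fin 4 → J) (a b : ℂ),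
    a • (W.pull (pr4 X 0) (F.f (w 0)) * W.pull (pr4 X 1) (F.f (w 1)) *
        W.pull (pr4 X 2) (F.f (w 2)) * W.pull (pr4 X 3) (F.f (w 3))) +
      b • (W.pull (pr4 X 0) (F.f (F.τ (w 0))) * W.pull (pr4 X 1) (F.f (F.τ (w 1))) *
        W.pull (pr4 X 2) (F.f (F.τ (w 2))) * W.pull (pr4 X 3) (F.f (F.τ (w 3)))) ∈
      Submodule.span ℝ (W.alg (Y4 X) 2 : Set (W.coh (Y4 X))) →
    ∀ x : ℝ, (∏ i, F.s (w i)) * (a * b) = (x : ℂ) → 0 ≤ x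

end

end Pool.Agent.Lib.MP_361a6f_ag.FL.PT0
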