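import Pool.Agent.Lib.MP_361a6f_ag.FL.PT.B3g
import Pool.Agent.Lib.MP_361a6f_ag.FL.PT0.Defs

/-!
# Theorem PT0: the sign, from the start
-/

open CategoryTheory AlgebraicGeometry MonoidalCategory CartesianMonoidalCategory

universe u w

set_option autoImplicit false
set_option linter.unusedSectionVars false

namespace Pool.Agent.Lib.MP_361a6f_ag.FL.PT0

open Pool.Agent.Lib.MP_361a6f_ag.H3 Pool.Agent.Lib.MP_361a6f_ag.FL.PT
  Pool.Agent.Lib.MP_361a6f_ag.FL.PT.B3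

noncomputable section

namespace S3

variable {k : Type u} [Field k] {W : CohomologyData.{u, 0, w} k ℂ} {𝒱 : VarietyClass k}
  {X : Sch k} {g : ℕ} {ξ : W.coh X} {E : ∀ Z : Sch k, ℕ → Set (W.coh Z)} {J : Type} [Fintype J]
  [DecidableEq J]

section cones

variable (hE : Eff0 W X g ξ E)

include hE

theorem mulY {i j : ℕ} {x y : W.coh (Y4 X)} (hx : x ∈ Bip (E (Y4 X) i)) (hy : y ∈ Bip (E (Y4 X) j)) :
    x * y ∈ Bip (E (Y4 X) (i + j)) :=
  Bip.mul (fun x hx y hy => Bip.of_mem (hE.mulY i j x y hx hy)) hx hy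

theorem mulZ {i j : ℕ} {x y : W.coh (Y4 X ⊗ Y4 X)} (hx : x ∈ Bip (E (Y4 X ⊗ Y4 X) i))
    (hy : y ∈ Bip (E (Y4 X ⊗ Y4 X) j)) : x * y ∈ Bip (E (Y4 X ⊗ Y4 X) (i + j)) :=
  Bip.mul (fun x hx y hy => Bip.of_mem (hE.mulZ i j x y hx hy)) hx hy

theorem xi_mem (i : Fin 4) (j : ℕ) : W.pull (pr4 X i) ξ ^ j ∈ Bip (E (Y4 X) j) := by
  induction j with
  | zero =>
    rw [pow_zero]
    exact Bip.of_mem hE.one
  | succ j ih =>
    rw [pow_succ]
    exact mulY hE ih (hE.xi i)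

theorem Om_mem : Om W g ξ ∈ Bip (E (Y4 X) (4 * (g - 1))) := by
  have h := mulY hE (mulY hE (mulY hE (xi_mem hE 0 (g - 1)) (xi_mem hE 1 (g - 1)))
    (xi_mem hE 2 (g - 1))) (xi_mem hE 3 (g - 1))
  have e : g - 1 + (g - 1) + (g - 1) + (g - 1) = 4 * (g - 1) := by ring
  rwa [e] at h

theorem trY {x : W.coh (Y4 X)} (hx : x ∈ Bip (E (Y4 X) (4 * g))) : 0 ≤ (W.tr (Y4 X) x).re := by
  refine Bip.nonneg (Complex.reLm ∘ₗ (W.tr (Y4 X)).restrictScalars ℝ) (fun e he => ?_) hx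
  obtain ⟨r, hr, hr'⟩ := hE.tr e he
  show 0 ≤ (W.tr (Y4 X) e).re
  rw [hr', Complex.ofReal_re]
  exact hr

end cones

theorem calc_of (hW : IsWeilCohomology W 𝒱) (hX : 𝒱.mem X g) (hg : 0 < g) (hξ : ξ ∈ W.alg X 1)
    (F : Fr W X g ξ J) (w : Fin 4 → J) (Lw : Law W X) (hE : Eff0 W X g ξ E) :
    Calc (W.pull (fst (Y4 X) (Y4 X))) (W.pull (snd (Y4 X) (Y4 X))) (IOm W (Z := Y4 X) (Om W g ξ))
      (LOm W (Om W g ξ)) (vl F w) (Vl F w) (Bip (E (Y4 X) 2)) (Bip (E (Y4 X ⊗ Y4 X) 2)) where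
  add := fun x hx y hy => Bip.add hx hy
  smul := fun r hr x hx => by
    rw [Complex.coe_smul]
    exact Bip.smul hr hx
  rot := fun a b ζ hζ h => by
    have hm := slots_mem Lw F (fun i => pr4 X i) (zz F w (fun i => if i = 0 then ζ else 1))
      (zz_conj F w _)
    have h2 := ecl_sub F w Lw (hE.pullY · 2) h hm
    have h3 := ecl_scale (vl F w) (Vl F w) (fun i => if i = 0 then ζ else 1)
      (fun i => if i = 0 then (starRingEnd ℂ) ζ else 1) (fun i => by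
        by_cases hi : i = 0
        · simp [hi, hζ]
        · simp [hi]) 1 a b
    simp only [zz_one, zz_two] at h2
    have e : ecl (fun i => (if i = 0 then ζ else 1) • vl F w i)
        (fun i => (if i = 0 then (starRingEnd ℂ) ζ else 1) • Vl F w i) 1 a b =
        ecl (fun i => (if i = 0 then ζ else 1) • W.pull (pr4 X i) (F.f (w i)))
          (fun i => F.s (w i) • ((starRingEnd ℂ) (if i = 0 then ζ else 1) •
            W.pull (pr4 X i) (F.f (F.τ (w i))))) 1 a b := by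
      congr 1
      funext i
      rw [Vl, lett, smul_comm]
      congr 2
      by_cases hi : i = 0
      · simp [hi]
      · simp [hi]
    rw [← e, h3] at h2
    simpa using h2
  pull := fun a b ζ hζ h => by
    have hm1 := slots_mem (Z := Y4 X ⊗ Y4 X) Lw F (fun i => fst (Y4 X) (Y4 X) ≫ pr4 X i)
      (zz F w (fun _ => ζ)) (zz_conj F w _)
    have hm2 := slots_mem (Z := Y4 X ⊗ Y4 X) Lw F (fun i => snd (Y4 X) (Y4 X) ≫ pr4 X i)
      (zz F w (fun _ => 1)) (zz_conj F w _)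
    have h2 := ecl_sub F w Lw (hE.pullZ · 2) h (Submodule.add_mem _ hm1 hm2)
    simp only [Pi.add_apply, zz_one, zz_two, W.pull_comp] at h2
    have e1 : (fun i => ζ • W.pull (fst (Y4 X) (Y4 X)) (vl F w i) +
        W.pull (snd (Y4 X) (Y4 X)) (vl F w i)) = fun i =>
        ζ • W.pull (fst (Y4 X) (Y4 X)) (W.pull (pr4 X i) (F.f (w i))) +
          (1 : ℂ) • W.pull (snd (Y4 X) (Y4 X)) (W.pull (pr4 X i) (F.f (w i))) := by
      funext i
      rw [one_smul]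
      rfl
    have e2 : (fun i => (starRingEnd ℂ) ζ • W.pull (fst (Y4 X) (Y4 X)) (Vl F w i) +
        W.pull (snd (Y4 X) (Y4 X)) (Vl F w i)) = fun i => F.s (w i) •
        ((starRingEnd ℂ) ζ • W.pull (fst (Y4 X) (Y4 X)) (W.pull (pr4 X i) (F.f (F.τ (w i)))) +
          (starRingEnd ℂ) 1 •
            W.pull (snd (Y4 X) (Y4 X)) (W.pull (pr4 X i) (F.f (F.τ (w i))))) := by
      funext i
      rw [Vl, lett, map_one, one_smul, smul_add, map_smul, map_smul, smul_comm]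
    rw [e1, e2]
    exact h2
  prod := fun x hx y hy z hz => by
    have h1 : W.pull (snd (Y4 X) (Y4 X)) (Om W g ξ) ∈ Bip (E (Y4 X ⊗ Y4 X) (4 * (g - 1))) :=
      Bip.map ((W.pull (snd (Y4 X) (Y4 X))).toLinearMap.restrictScalars ℝ)
        (fun y hy => Bip.of_mem (hE.pullZ _ _ y hy)) (Om_mem hE)
    have h2 := mulZ hE (mulZ hE hx (mulZ hE hy hz)) h1
    have e : 2 + (2 + 2) + 4 * (g - 1) = 2 + 4 * g := by omega
    rw [e] at h2
    exact Bip.map ((W.push (fst (Y4 X) (Y4 X))).restrictScalars ℝ)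
      (fun y hy => Bip.of_mem (hE.push 2 y hy)) h2
  tr := fun x hx y hy => by
    have h := mulY hE (mulY hE hx hy) (Om_mem hE)
    have e : 2 + 2 + 4 * (g - 1) = 4 * g := by omega
    rw [e] at h
    exact trY hE h
  vol := by
    refine ⟨F.κ ^ 4, pow_pos F.κ_pos 4, ?_⟩
    have hy : ∀ i, F.s (w i) • (F.f (w i) * F.f (F.τ (w i))) ∈ W.gr X (2 * 1) := fun i => by
      have h := hW.mul_gr hX (F.f_gr (w i)) (F.f_gr (F.τ (w i)))
      exact Submodule.smul_mem _ _ h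
    have h := tr_vol hW hX hξ (fun i => F.s (w i) • (F.f (w i) * F.f (F.τ (w i)))) hy
    simp only [F.tr] at h
    rw [Finset.prod_const, Finset.card_univ, Fintype.card_fin] at h
    rw [LOm_apply]
    have e : vol (vl F w) (Vl F w) = W.pull (pr4 X 0) (F.s (w 0) • (F.f (w 0) * F.f (F.τ (w 0)))) *
        W.pull (pr4 X 1) (F.s (w 1) • (F.f (w 1) * F.f (F.τ (w 1)))) *
        W.pull (pr4 X 2) (F.s (w 2) • (F.f (w 2) * F.f (F.τ (w 2)))) *
        W.pull (pr4 X 3) (F.s (w 3) • (F.f (w 3) * F.f (F.τ (w 3)))) := by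
      have h3 : ∀ i, vl F w i * Vl F w i =
          W.pull (pr4 X i) (F.s (w i) • (F.f (w i) * F.f (F.τ (w i)))) := fun i => by
        rw [vl, Vl, lett, lett, mul_smul_comm, map_smul, map_mul]
      rw [vol, h3, h3, h3, h3]
    rw [e, h]
    push_cast
    rfl


end S3

/-- **Row B30** from row START0. -/
theorem b30_of (h0 : Start0Statement.{u, w}) : B30Statement.{u, w} := by
  intro a1 a2 k _ W 𝒱 hW X g hX hg Lw ξ hξ hA E hE J _ _ F hF w a b hz x hx
  obtain ⟨N, hN, h3⟩ := h0 hW hX hg Lw hξ hA hE F hF w a b hz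
  have C := S3.calc_of hW hX hg hξ F w Lw hE
  have h4 := C.smul N⁻¹ (inv_nonneg.2 hN.le) _ h3
  rw [ecl_smul] at h4
  have hd' : (N : ℂ) ≠ 0 := by exact_mod_cast hN.ne'
  have e1 : ((N⁻¹ : ℝ) : ℂ) * (N : ℂ) = 1 := by
    rw [Complex.ofReal_inv, inv_mul_cancel₀ hd']
  rw [e1] at h4
  have hB := berY hW (B3.memY hX) (B3.Om_gr hW hX hξ) (by omega : 8 * (g - 1) + 8 = 2 * (4 * g))
  have h5 := amp a1 a2 rowC hB (B3.vl_gr hW hX F w) (B3.Vl_gr hW hX F w) C _ _ h4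
    (N⁻¹ ^ 2 * x) (by
      push_cast
      rw [← hx]
      ring)
  have h6 : 0 < N⁻¹ ^ 2 := by positivity
  exact nonneg_of_mul_nonneg_right h5 h6

end

end Pool.Agent.Lib.MP_361a6f_ag.FL.PT0
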