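import Pool.Agent.Lib.MP_361a6f_ag.FL.PT0.Trace
import Pool.Agent.Lib.MP_361a6f_ag.FL.PT0.Defs

/-!
# Theorem PT0: the structures `Law` and `Eff0` from `EQ.Effective`
-/

open CategoryTheory AlgebraicGeometry MonoidalCategory CartesianMonoidalCategory

universe u w

set_option autoImplicit false
set_option linter.unusedSectionVars false

namespace Pool.Agent.Lib.MP_361a6f_ag.FL.PT0

open Pool.Agent.Lib.MP_361a6f_ag.H3 Pool.Agent.Lib.MP_361a6f_ag.SQ
  Pool.Agent.Lib.MP_361a6f_ag.FL.PT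

variable {k : Type u} [Field k] {W : CohomologyData.{u, 0, w} k ℂ} {𝒱 : VarietyClass k}
  (hW : IsWeilCohomology W 𝒱) {X : Sch k} {g : ℕ} (hX : 𝒱.mem X g)
  (h0 : ∀ x ∈ W.gr X 0, ∃ c : ℂ, x = c • (1 : W.coh X)) {θ : W.coh X}
  (hθ : PositiveDivisor W X g θ) (hM : EQ.Effective W X g θ)

include hW hX hθ in
theorem exists_point : ∃ ω ∈ EQ.eff W X g, W.tr X ω = 1 := by
  by_cases hZ : Nonempty (X.Pt g)
  · obtain ⟨Z⟩ := hZ
    refine ⟨W.cl X g Z, AddSubmonoid.subset_closure ⟨1, Z, zero_le_one, ?_⟩, hW.cl_point hX Z⟩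
    rw [Rat.cast_one, one_smul]
  · exfalso
    have h1 : ∀ x ∈ W.alg X g, x = 0 := by
      intro x hx
      induction hx using AddSubgroup.closure_induction with
      | mem x hx =>
        obtain ⟨q, Z, rfl⟩ := hx
        exact absurd ⟨Z⟩ hZ
      | zero => rfl
      | add x y _ _ hx hy => rw [hx, hy, add_zero]
      | neg x _ hx => rw [hx, neg_zero]
    have h2 : θ ^ g ∈ W.alg X g := by
      have h := hW.pow_alg hX hθ.1 g
      simpa using h
    have h3 := h1 _ h2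
    obtain ⟨q, hq, h4⟩ := hθ.2
    have h4' : W.tr X (θ ^ g) = (q : ℂ) := h4
    rw [h3, map_zero] at h4'
    have : q = 0 := by exact_mod_cast h4'.symm
    exact absurd this hq.ne'

include hW hX hM h0 in
/-- `Law` from `EQ.Effective` -/
theorem law0 : Nonempty (Law W X) := by
  obtain ⟨L⟩ := exists_dv hM.group
  have hm : ∀ v ∈ W.gr X 1, W.pull L.m v = W.pull (fst X X) v + W.pull (snd X X) v :=
    fun v hv => AbV.pull_m hW hX h0 L.unit' L.unit hv
  have he : ∀ v ∈ W.gr X 1, W.pull L.e v = 0 := fun v hv =>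
    hW.top_gr 𝒱.point (hW.pull_gr 𝒱.point hX L.e hv) (by omega)
  refine ⟨⟨L.m, L.e, hm, he, 1, one_pos, lift (𝟙 X) (toUnit X ≫ L.e) ≫ L.δ, fun v hv => ?_⟩⟩
  have h1 := L.div_mul (𝟙 X) (toUnit X ≫ L.e)
  have h2 : W.pull (lift (𝟙 X) (lift (𝟙 X) (toUnit X ≫ L.e) ≫ L.δ) ≫ L.m) v = 0 := by
    rw [h1, W.pull_comp, he v hv, map_zero]
  rw [W.pull_comp, hm v hv, map_add, ← W.pull_comp, ← W.pull_comp, lift_fst, lift_snd,
    W.pull_id] at h2
  rw [Nat.cast_one, one_smul]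
  exact (neg_eq_of_add_eq_zero_right h2).symm

include hW hX hM h0 hθ in
/-- `Eff0` from `EQ.Effective` -/
theorem eff0 : Eff0 W X g θ (fun Z j => (cone W X g Z j : Set (W.coh Z))) := by
  obtain ⟨ω, hω, h1⟩ := exists_point hW hX hθ
  have hY : 𝒱.mem (Y4 X) (4 * g) := B3.memY hX
  have hZ : 𝒱.mem (Y4 X ⊗ Y4 X) (4 * g + 4 * g) := B3.memZ hX
  let Q : Prd 1 := .prod (.prod (.leaf 0) (.leaf 0)) (.prod (.leaf 0) (.leaf 0))
  have hQ : (Q.dim fun _ => g) = 4 * g := by
    show g + g + (g + g) = 4 * g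
    ring
  refine
    { mulY := fun i j x y hx hy => cone_mul hW hX hM hY hx hy
      mulZ := fun i j x y hx hy => cone_mul hW hX hM hZ hx hy
      pullY := fun f j y hy => cone_pull hW hX hY hY f hy
      pullZ := fun f j y hy => cone_pull hW hX hY hZ f hy
      push := fun j x hx => ?_
      tr := fun x hx => ?_
      one := eff_cone hW hX hM hω h1 Q (hM.one Q)
      xi := fun i => ?_
      alg := fun j x hx => cone_gr hW hX hY hx
      gen := fun j x hx => ?_ }
  · rw [← hQ] at hx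
    exact cone_push hW hX hY Q hx
  · induction hx using AddSubmonoid.closure_induction with
    | mem x hx =>
      obtain ⟨P, Q', φ, β, hβ, rfl⟩ := hx
      have hP := mem_pw hX P
      have e : 4 * g + (P.dim fun _ => g) = (Prd.prod Q P).dim fun _ => g := by
        rw [← hQ]
        rfl
      rw [e] at hβ
      obtain ⟨q, hq, h2⟩ := tr_pull_eff hW hX h0 hM (hW.alg_gr hX (eff_alg hω)) h1 (.prod Q P) Q'
        φ hβ
      have h3 := hW.push_adj (𝒱.prod hY hP) hY (fst (Y4 X) (EQ.pw X P)) (W.pull φ β) 1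
      rw [mul_one, map_one, mul_one] at h3
      refine ⟨(q : ℝ), by exact_mod_cast hq, h3.trans (h2.trans ?_)⟩
      push_cast
      rfl
    | zero => exact ⟨0, le_rfl, by simp⟩
    | add x y _ _ hx hy =>
      obtain ⟨r, hr, e⟩ := hx
      obtain ⟨s, hs, e'⟩ := hy
      exact ⟨r + s, add_nonneg hr hs, by rw [map_add, e, e']; push_cast; rfl⟩
  · obtain ⟨N, hN, h2⟩ := hM.divisor
    have h3 : W.scal (N : ℂ) θ ∈ cone W X g X 1 := eff_cone hW hX hM hω h1 (.leaf 0) h2
    have h4 := cone_pull hW hX hX hY (pr4 X i) h3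
    have h5 : W.pull (pr4 X i) θ = ((N : ℝ)⁻¹ : ℝ) • W.pull (pr4 X i) (W.scal (N : ℂ) θ) := by
      rw [map_smul, ← Complex.coe_smul, smul_smul]
      have : (N : ℂ) ≠ 0 := by exact_mod_cast hN.ne'
      push_cast
      rw [inv_mul_cancel₀ this, one_smul]
    rw [h5]
    exact Bip.smul (by positivity) (Bip.of_mem h4)
  · obtain ⟨a, ha, b, hb, e⟩ := alg_sub hx
    exact ⟨a, eff_cone hW hX hM hω h1 Q ha, b, eff_cone hW hX hM hω h1 Q hb, e⟩

end Pool.Agent.Lib.MP_361a6f_ag.FL.PT0
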