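import Mathlib

/-!
# Theorem PT0, row START0: words of length four, averages over signs
-/

set_option autoImplicit false

namespace Pool.Agent.Lib.MP_361a6f_ag.FL.PT0

section words

variable {R : Type*} [Ring R] [Algebra ℂ R] {κ : Type*} (x : κ → R)

/-- the span of the words of length `n` -/
def wsp (n : ℕ) : Submodule ℂ R :=
  Submodule.span ℂ {z | ∃ l : List κ, l.length = n ∧ z = (l.map x).prod}

theorem wsp_le {gr : ℕ → Submodule ℂ R} (h1 : (1 : R) ∈ gr 0)
    (hm : ∀ i j a b, a ∈ gr i → b ∈ gr j → a * b ∈ gr (i + j)) (hx : ∀ p, x p ∈ gr 1) (n : ℕ) :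
    wsp x n ≤ gr n := by
  refine Submodule.span_le.2 ?_
  rintro z ⟨l, hl, rfl⟩
  subst hl
  induction l with
  | nil => simpa using h1
  | cons p l ih =>
    rw [List.map_cons, List.prod_cons, List.length_cons, add_comm]
    exact hm 1 _ _ _ (hx p) ih

theorem top_le_wsp (hg : ∀ y : R, y ∈ Algebra.adjoin ℂ (Set.range x)) :
    (⊤ : Submodule ℂ R) ≤ ⨆ n, wsp x n := by
  intro y _
  have h := hg y
  rw [← Subalgebra.mem_toSubmodule, Algebra.adjoin_eq_span] at h
  refine (Submodule.span_le.2 ?_) h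
  intro z hz
  have h2 : ∃ l : List κ, z = (l.map x).prod := by
    induction hz using Submonoid.closure_induction with
    | mem z hz =>
      obtain ⟨p, rfl⟩ := hz
      exact ⟨[p], by simp⟩
    | one => exact ⟨[], by simp⟩
    | mul a b _ _ ha hb =>
      obtain ⟨l, rfl⟩ := ha
      obtain ⟨l', rfl⟩ := hb
      exact ⟨l ++ l', by simp⟩
  obtain ⟨l, rfl⟩ := h2
  exact Submodule.mem_iSup_of_mem l.length (Submodule.subset_span ⟨l, rfl, rfl⟩)

theorem gr_le_wsp {gr : ℕ → Submodule ℂ R} (hi : iSupIndep gr) (h1 : (1 : R) ∈ gr 0)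
    (hm : ∀ i j a b, a ∈ gr i → b ∈ gr j → a * b ∈ gr (i + j)) (hx : ∀ p, x p ∈ gr 1)
    (hg : ∀ y : R, y ∈ Algebra.adjoin ℂ (Set.range x)) (n : ℕ) : gr n ≤ wsp x n := by
  intro y hy
  have h2 : y ∈ wsp x n ⊔ ⨆ (j) (_ : j ≠ n), wsp x j := by
    refine (le_trans (top_le_wsp x hg) ?_) (Submodule.mem_top (x := y))
    refine iSup_le fun j => ?_
    by_cases hj : j = n
    · subst hj
      exact le_sup_left
    · exact le_trans (le_iSup₂_of_le (f := fun (j : ℕ) (_ : j ≠ n) => wsp x j) j hj le_rfl)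
        le_sup_right
  obtain ⟨a, ha, b, hb, hab⟩ := Submodule.mem_sup.1 h2
  have h3 : b ∈ ⨆ (j) (_ : j ≠ n), gr j :=
    (iSup₂_mono fun j _ => wsp_le x h1 hm hx j) hb
  have h4 : b ∈ gr n := by
    have : b = y - a := by rw [← hab]; abel
    rw [this]
    exact sub_mem hy (wsp_le x h1 hm hx n ha)
  have h5 : b = 0 := (Submodule.disjoint_def.1 (hi n)) b h4 h3
  rw [← hab, h5, add_zero]
  exact ha

/-- the elements of degree four are forms of degree four -/
theorem exists_form [Fintype κ] [DecidableEq κ] {gr : ℕ → Submodule ℂ R} (hi : iSupIndep gr)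
    (h1 : (1 : R) ∈ gr 0)
    (hm : ∀ i j a b, a ∈ gr i → b ∈ gr j → a * b ∈ gr (i + j)) (hx : ∀ p, x p ∈ gr 1)
    (hg : ∀ y : R, y ∈ Algebra.adjoin ℂ (Set.range x)) {y : R} (hy : y ∈ gr 4) :
    ∃ c : (Fin 4 → κ) → ℂ, y = ∑ u, c u • (x (u 0) * x (u 1) * x (u 2) * x (u 3)) := by
  have h2 := gr_le_wsp x hi h1 hm hx hg 4 hy
  have h3 : y ∈ Submodule.span ℂ (Set.range fun u : Fin 4 → κ =>
      x (u 0) * x (u 1) * x (u 2) * x (u 3)) := by
    refine (Submodule.span_le.2 ?_) h2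
    rintro z ⟨l, hl, rfl⟩
    obtain ⟨p0, p1, p2, p3, rfl⟩ : ∃ p0 p1 p2 p3, l = [p0, p1, p2, p3] := by
      match l, hl with
      | [p0, p1, p2, p3], _ => exact ⟨p0, p1, p2, p3, rfl⟩
    refine Submodule.subset_span ⟨![p0, p1, p2, p3], ?_⟩
    simp [mul_assoc]
  obtain ⟨c, hc⟩ := (Submodule.mem_span_range_iff_exists_fun ℂ).1 h3
  exact ⟨c, hc.symm⟩

end words

/-! ### Signs -/

/-- the signs -/
def sgn (b : Bool) : ℂ := if b then -1 else 1

theorem sgn_conj (b : Bool) : (starRingEnd ℂ) (sgn b) = sgn b := by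
  cases b <;> simp [sgn]

set_option maxRecDepth 10000 in
theorem exists_odd : ∀ a b c d : Fin 4, ¬ ((a = b ∧ c = d) ∨ (a = c ∧ b = d) ∨
    (a = d ∧ b = c)) → ∃ k : Fin 4, ((if a = k then (-1 : ℤ) else 1) *
      (if b = k then -1 else 1) * (if c = k then -1 else 1) * (if d = k then -1 else 1)) = -1 := by
  decide

/-- the sum over the signs vanishes unless the slots are paired -/
theorem sum_sgn (s : Fin 4 → Fin 4) (hs : ¬ ((s 0 = s 1 ∧ s 2 = s 3) ∨ (s 0 = s 2 ∧ s 1 = s 3) ∨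
    (s 0 = s 3 ∧ s 1 = s 2))) :
    ∑ ε : Fin 4 → Bool, sgn (ε (s 0)) * sgn (ε (s 1)) * sgn (ε (s 2)) * sgn (ε (s 3)) = 0 := by
  -- a slot that occurs an odd number of times
  obtain ⟨k, hk⟩ : ∃ k : Fin 4, ((if s 0 = k then (-1 : ℤ) else 1) * (if s 1 = k then -1 else 1) *
      (if s 2 = k then -1 else 1) * (if s 3 = k then -1 else 1)) = -1 := exists_odd _ _ _ _ hs
  -- flip the sign
  let φ : (Fin 4 → Bool) ≃ (Fin 4 → Bool) :=
    Function.Involutive.toPerm (fun ε i => if i = k then !(ε i) else ε i) (fun ε => by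
      funext i
      by_cases hi : i = k <;> simp [hi])
  have h1 : ∀ (ε : Fin 4 → Bool) (i : Fin 4), sgn (φ ε i) =
      (((if i = k then (-1 : ℤ) else 1) : ℤ) : ℂ) * sgn (ε i) := by
    intro ε i
    show sgn (if i = k then !(ε i) else ε i) = _
    by_cases hi : i = k
    · rw [if_pos hi, if_pos hi]
      cases ε i <;> simp [sgn]
    · rw [if_neg hi, if_neg hi]
      simp
  have h2 := Equiv.sum_comp φ
    (fun ε : Fin 4 → Bool => sgn (ε (s 0)) * sgn (ε (s 1)) * sgn (ε (s 2)) * sgn (ε (s 3)))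
  have h3 : ∀ ε : Fin 4 → Bool, sgn (φ ε (s 0)) * sgn (φ ε (s 1)) * sgn (φ ε (s 2)) *
      sgn (φ ε (s 3)) = -(sgn (ε (s 0)) * sgn (ε (s 1)) * sgn (ε (s 2)) * sgn (ε (s 3))) := by
    intro ε
    rw [h1, h1, h1, h1]
    have h4 : (((if s 0 = k then (-1 : ℤ) else 1) : ℤ) : ℂ) *
        (((if s 1 = k then (-1 : ℤ) else 1) : ℤ) : ℂ) *
        (((if s 2 = k then (-1 : ℤ) else 1) : ℤ) : ℂ) *
        (((if s 3 = k then (-1 : ℤ) else 1) : ℤ) : ℂ) = -1 := by
      rw [← Int.cast_mul, ← Int.cast_mul, ← Int.cast_mul, hk]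
      norm_num
    linear_combination (sgn (ε (s 0)) * sgn (ε (s 1)) * sgn (ε (s 2)) * sgn (ε (s 3))) * h4
  simp only [h3, Finset.sum_neg_distrib] at h2
  have h5 : (2 : ℂ) * ∑ ε : Fin 4 → Bool, sgn (ε (s 0)) * sgn (ε (s 1)) * sgn (ε (s 2)) *
      sgn (ε (s 3)) = 0 := by linear_combination -h2
  exact (mul_eq_zero.1 h5).resolve_left two_ne_zero

/-! ### Four commuting elements of square zero -/

section four

variable {R : Type*} [Ring R] (A : Fin 4 → R)

/-- the pairs of slots -/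
def pa : Fin 6 → Fin 4 × Fin 4 := ![(0, 1), (0, 2), (0, 3), (1, 2), (1, 3), (2, 3)]

/-- the products of two -/
def tt (p : Fin 6) : R := A (pa p).1 * A (pa p).2

theorem exists_pa : ∀ i j : Fin 4, i = j ∨ ∃ p, pa p = (i, j) ∨ pa p = (j, i) := by decide

theorem tt_mem [Algebra ℂ R] (hc : ∀ i j, A i * A j = A j * A i) (h0 : ∀ i, A i * A i = 0) (i j : Fin 4) :
    A i * A j ∈ Submodule.span ℂ (Set.range (tt A)) := by
  rcases exists_pa i j with h | ⟨p, h | h⟩
  · subst h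
    rw [h0]
    exact zero_mem _
  · refine Submodule.subset_span ⟨p, ?_⟩
    rw [tt, h]
  · refine Submodule.subset_span ⟨p, ?_⟩
    rw [tt, h, hc]

theorem tt_share : ∀ p q : Fin 6, q ≠ Fin.rev p → (pa p).1 = (pa q).1 ∨ (pa p).1 = (pa q).2 ∨
    (pa p).2 = (pa q).1 ∨ (pa p).2 = (pa q).2 := by decide

theorem tt_ne (hc : ∀ i j, A i * A j = A j * A i) (h0 : ∀ i, A i * A i = 0) {p q : Fin 6}
    (h : q ≠ Fin.rev p) : tt A p * tt A q = 0 := by
  rcases tt_share p q h with e | e | e | e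
  · rw [tt, tt, e, hc (pa q).1 (pa p).2, mul_assoc, ← mul_assoc (A (pa q).1), h0, zero_mul,
      mul_zero]
  · rw [tt, tt, e, hc (pa q).2 (pa p).2, hc (pa q).1 (pa q).2, mul_assoc,
      ← mul_assoc (A (pa q).2), h0, zero_mul, mul_zero]
  · rw [tt, tt, e, mul_assoc, ← mul_assoc (A (pa q).1), h0, zero_mul, mul_zero]
  · rw [tt, tt, e, hc (pa q).1 (pa q).2, mul_assoc, ← mul_assoc (A (pa q).2), h0, zero_mul,
      mul_zero]

theorem tt_rev (hc : ∀ i j, A i * A j = A j * A i) (p : Fin 6) :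
    tt A p * tt A (Fin.rev p) = A 0 * A 1 * A 2 * A 3 := by
  have h01 := hc 0 1
  have h02 := hc 0 2
  have h03 := hc 0 3
  have h12 := hc 1 2
  have h13 := hc 1 3
  have h23 := hc 2 3
  have e : ∀ i j k l : Fin 4, A i * A j * (A k * A l) = A i * (A j * A k) * A l := by
    intro i j k l
    simp only [mul_assoc]
  have c : ∀ i j k l : Fin 4, A i * A j * (A k * A l) = A k * A l * (A i * A j) := by
    intro i j k l
    have h1 : Commute (A i) (A k) := hc i k
    have h2 : Commute (A i) (A l) := hc i l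
    have h3 : Commute (A j) (A k) := hc j k
    have h4 : Commute (A j) (A l) := hc j l
    exact ((h1.mul_right h2).mul_left (h3.mul_right h4)).eq
  fin_cases p
  · show A 0 * A 1 * (A 2 * A 3) = _
    rw [← mul_assoc]
  · show A 0 * A 2 * (A 1 * A 3) = _
    rw [e, ← h12]
    simp only [mul_assoc]
  · show A 0 * A 3 * (A 1 * A 2) = _
    rw [e, ← h13, ← e, ← h23, ← mul_assoc]
  · show A 1 * A 2 * (A 0 * A 3) = _
    rw [c, e, ← h13, ← e, ← h23, ← mul_assoc]
  · show A 1 * A 3 * (A 0 * A 2) = _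
    rw [c, e, ← h12]
    simp only [mul_assoc]
  · show A 2 * A 3 * (A 0 * A 1) = _
    rw [c, ← mul_assoc]

theorem sum_tt : ∑ p, tt A p =
    A 0 * A 1 + A 0 * A 2 + A 0 * A 3 + A 1 * A 2 + A 1 * A 3 + A 2 * A 3 := by
  rw [Fin.sum_univ_six]
  rfl

end four

end Pool.Agent.Lib.MP_361a6f_ag.FL.PT0
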