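import Pool.Agent.Lib.MP_361a6f_ag.FL.PT.B3g
import Pool.Agent.Lib.MP_361a6f_ag.FL.PT0.Defs
import Pool.Agent.Lib.MP_361a6f_ag.FL.PT0.Wds

/-!
# Theorem PT0, row START0: the start of the amplification without the moving lemma
-/

open CategoryTheory AlgebraicGeometry MonoidalCategory CartesianMonoidalCategory

universe u w

set_option autoImplicit false
set_option linter.unusedSectionVars false

namespace Pool.Agent.Lib.MP_361a6f_ag.FL.PT0

open Pool.Agent.Lib.MP_361a6f_ag.H3 Pool.Agent.Lib.MP_361a6f_ag.FL.PT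
  Pool.Agent.Lib.MP_361a6f_ag.FL.PT.B3

noncomputable section

variable {k : Type u} [Field k] {W : CohomologyData.{u, 0, w} k ℂ} {𝒱 : VarietyClass k}
  {X : Sch k} {g : ℕ} {ξ : W.coh X} {E : ∀ Z : Sch k, ℕ → Set (W.coh Z)} {J : Type} [Fintype J]
  [DecidableEq J]

section gen

variable (hW : IsWeilCohomology W 𝒱) (hX : 𝒱.mem X g) (F : Fr W X g ξ J)
  (hgen : ∀ x : W.coh X, x ∈ Algebra.adjoin ℂ (W.gr X 1 : Set (W.coh X)))
  (hF : ∀ v ∈ W.gr X 1, v ∈ Submodule.span ℂ (Set.range F.f))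

include hgen hF in
theorem pull_adjoin (i : Fin 4) (x : W.coh X) :
    W.pull (pr4 X i) x ∈ Algebra.adjoin ℂ (Set.range (lett F)) := by
  have h : Algebra.adjoin ℂ (W.gr X 1 : Set (W.coh X)) ≤
      (Algebra.adjoin ℂ (Set.range (lett F))).comap (W.pull (pr4 X i)) := by
    refine Algebra.adjoin_le fun v hv => ?_
    have h1 : Submodule.span ℂ (Set.range F.f) ≤ (Subalgebra.toSubmodule
        (Algebra.adjoin ℂ (Set.range (lett F)))).comap (W.pull (pr4 X i)).toLinearMap := by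
      refine Submodule.span_le.2 ?_
      rintro _ ⟨j, rfl⟩
      exact Algebra.subset_adjoin ⟨(i, j), rfl⟩
    exact h1 (hF v hv)
  exact h (hgen x)

include hW hX hgen hF in
theorem letters_gen (y : W.coh (Y4 X)) : y ∈ Algebra.adjoin ℂ (Set.range (lett F)) := by
  have h2 := 𝒱.prod hX hX
  -- the pull-backs from the two factors
  have key : ∀ (π : Y4 X ⟶ X ⊗ X) (i j : Fin 4), π ≫ fst X X = pr4 X i → π ≫ snd X X = pr4 X j →
      ∀ z : W.coh (X ⊗ X), W.pull π z ∈ Algebra.adjoin ℂ (Set.range (lett F)) := by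
    intro π i j hi hj z
    have hz : z ∈ Submodule.span ℂ {z | ∃ (x : W.coh X) (y : W.coh X),
        z = W.pull (fst X X) x * W.pull (snd X X) y} := by
      rw [hW.kunneth_span hX hX]
      exact Submodule.mem_top
    have h1 : Submodule.span ℂ {z | ∃ (x : W.coh X) (y : W.coh X),
        z = W.pull (fst X X) x * W.pull (snd X X) y} ≤ (Subalgebra.toSubmodule
        (Algebra.adjoin ℂ (Set.range (lett F)))).comap (W.pull π).toLinearMap := by
      refine Submodule.span_le.2 ?_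
      rintro _ ⟨x, y, rfl⟩
      show W.pull π (W.pull (fst X X) x * W.pull (snd X X) y) ∈
        Algebra.adjoin ℂ (Set.range (lett F))
      rw [map_mul, ← W.pull_comp, ← W.pull_comp, hi, hj]
      exact mul_mem (pull_adjoin F hgen hF i x) (pull_adjoin F hgen hF j y)
    exact h1 hz
  have hy : y ∈ Submodule.span ℂ {z | ∃ (x : W.coh (X ⊗ X)) (y : W.coh (X ⊗ X)),
      z = W.pull (fst (X ⊗ X) (X ⊗ X)) x * W.pull (snd (X ⊗ X) (X ⊗ X)) y} := by
    rw [hW.kunneth_span h2 h2]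
    exact Submodule.mem_top
  have h1 : Submodule.span ℂ {z | ∃ (x : W.coh (X ⊗ X)) (y : W.coh (X ⊗ X)),
      z = W.pull (fst (X ⊗ X) (X ⊗ X)) x * W.pull (snd (X ⊗ X) (X ⊗ X)) y} ≤
      Subalgebra.toSubmodule (Algebra.adjoin ℂ (Set.range (lett F))) := by
    refine Submodule.span_le.2 ?_
    rintro _ ⟨x, y, rfl⟩
    show W.pull (fst (X ⊗ X) (X ⊗ X)) x * W.pull (snd (X ⊗ X) (X ⊗ X)) y ∈
      Algebra.adjoin ℂ (Set.range (lett F))
    exact mul_mem (key _ 0 1 rfl rfl x) (key _ 2 3 rfl rfl y)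
  exact h1 hy

include hW hX hgen hF in
/-- the classes of degree four are forms in the letters -/
theorem exists_wsum {y : W.coh (Y4 X)} (hy : y ∈ W.gr (Y4 X) 4) :
    ∃ c : (Fin 4 → Fin 4 × J) → ℂ, y = wsum c id (lett F) :=
  exists_form (lett F) (hW.internal (memY hX)).submodule_iSupIndep (hW.one_gr (memY hX))
    (fun _ _ _ _ ha hb => hW.mul_gr (memY hX) ha hb)
    (fun p => hW.pull_gr (memY hX) hX (pr4 X p.1) (F.f_gr p.2))
    (letters_gen hW hX F hgen hF) hy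

end gen

section cone

variable (hW : IsWeilCohomology W 𝒱) (hX : 𝒱.mem X g) (F : Fr W X g ξ J) (w : Fin 4 → J)

/-- the values of the letters -/
def mv (ε : Fin 4 → Bool) (p : Fin 4 × J) : W.coh (Y4 X) :=
  zz F w (fun i => sgn (ε i)) p.1 p.2 • W.pull (pr4 X p.1) (F.f p.2)

/-- the values of the letters, all signs positive -/
def m1 (p : Fin 4 × J) : W.coh (Y4 X) :=
  zz F w (fun _ => 1) p.1 p.2 • W.pull (pr4 X p.1) (F.f p.2)

theorem mv_eq (ε : Fin 4 → Bool) (p : Fin 4 × J) : mv F w ε p = sgn (ε p.1) • m1 F w p := by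
  unfold mv m1 zz
  split_ifs
  · rw [one_smul]
  · rw [sgn_conj, map_one, one_smul]
  · rw [zero_smul, smul_zero]

theorem mv_true : mv F w (fun _ => false) = m1 F w := by
  funext p
  rw [mv_eq]
  simp [sgn]

/-- the classes `v V` of the slots -/
def sl (i : Fin 4) : W.coh (Y4 X) := vl F w i * Vl F w i

include hW hX in
theorem sl_comm (i j : Fin 4) : sl F w i * sl F w j = sl F w j * sl F w i := by
  have h : sl F w i ∈ W.gr (Y4 X) (2 * 1) := by
    have h := hW.mul_gr (memY hX) (vl_gr hW hX F w i) (Vl_gr hW hX F w i)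
    exact h
  exact hW.even_comm (memY hX) h _

include hW hX in
theorem sl_sq (i : Fin 4) : sl F w i * sl F w i = 0 := by
  have h5 := anti1 hW hX (Vl_gr hW hX F w i) (vl_gr hW hX F w i)
  have h6 := sq1 hW hX (vl_gr hW hX F w i)
  calc vl F w i * Vl F w i * (vl F w i * Vl F w i)
      = vl F w i * (Vl F w i * vl F w i) * Vl F w i := by simp only [mul_assoc]
    _ = 0 := by rw [h5, mul_neg, ← mul_assoc, h6]; simp

theorem lett_tau (i : Fin 4) : lett F (i, F.τ (w i)) = F.s (w i) • Vl F w i := by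
  rw [Vl, smul_smul, F.s_sq, one_smul]

/-- the value of a letter -/
theorem m1_cases (i : Fin 4) (j : J) : ∃ a b : ℂ, m1 F w (i, j) = a • vl F w i + b • Vl F w i := by
  by_cases h1 : j = w i
  · subst h1
    refine ⟨1, 0, ?_⟩
    rw [zero_smul, add_zero, m1]
    simp only [zz_one]
    rfl
  · by_cases h2 : j = F.τ (w i)
    · subst h2
      refine ⟨0, F.s (w i), ?_⟩
      rw [zero_smul, zero_add, ← lett_tau, m1]
      simp only [zz_two, map_one, one_smul]
      rfl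
    · refine ⟨0, 0, ?_⟩
      rw [zero_smul, zero_smul, add_zero, m1]
      simp only [zz, if_neg h1, if_neg h2, zero_smul]

include hW hX in
/-- the product of two letters of one slot -/
theorem m1_mul (i : Fin 4) (j j' : J) : ∃ a : ℂ, m1 F w (i, j) * m1 F w (i, j') = a • sl F w i := by
  obtain ⟨a, b, h⟩ := m1_cases F w i j
  obtain ⟨a', b', h'⟩ := m1_cases F w i j'
  refine ⟨a * b' - b * a', ?_⟩
  rw [h, h', add_mul, mul_add, mul_add]
  simp only [smul_mul_smul_comm]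
  rw [sq1 hW hX (vl_gr hW hX F w i), sq1 hW hX (Vl_gr hW hX F w i),
    anti1 hW hX (Vl_gr hW hX F w i) (vl_gr hW hX F w i), smul_zero, smul_zero, zero_add, add_zero,
    smul_neg, ← sub_eq_add_neg, sub_smul]
  rfl

theorem m1_gr (hW : IsWeilCohomology W 𝒱) (hX : 𝒱.mem X g) (p : Fin 4 × J) :
    m1 F w p ∈ W.gr (Y4 X) 1 :=
  Submodule.smul_mem _ _ (hW.pull_gr (memY hX) hX (pr4 X p.1) (F.f_gr p.2))

/-- the span of the products of two slots -/
def SS : Submodule ℂ (W.coh (Y4 X)) := Submodule.span ℂ (Set.range (tt (sl F w)))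

include hW hX in
/-- the words with paired slots -/
theorem word_mem (u : Fin 4 → Fin 4 × J)
    (hu : ((u 0).1 = (u 1).1 ∧ (u 2).1 = (u 3).1) ∨ ((u 0).1 = (u 2).1 ∧ (u 1).1 = (u 3).1) ∨
      ((u 0).1 = (u 3).1 ∧ (u 1).1 = (u 2).1)) :
    m1 F w (u 0) * m1 F w (u 1) * m1 F w (u 2) * m1 F w (u 3) ∈ SS F w := by
  have key : ∀ p q r s : Fin 4 × J, p.1 = q.1 → r.1 = s.1 →
      m1 F w p * m1 F w q * (m1 F w r * m1 F w s) ∈ SS F w := by
    rintro ⟨i, j⟩ ⟨i', j'⟩ ⟨l, n⟩ ⟨l', n'⟩ h1 h2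
    simp only at h1 h2
    subst h1 h2
    obtain ⟨a, ha⟩ := m1_mul hW hX F w i j j'
    obtain ⟨b, hb⟩ := m1_mul hW hX F w l n n'
    rw [ha, hb, smul_mul_smul_comm]
    exact Submodule.smul_mem _ _ (tt_mem (sl F w) (sl_comm hW hX F w) (sl_sq hW hX F w) i l)
  have an : ∀ p q : Fin 4 × J, m1 F w p * m1 F w q = -(m1 F w q * m1 F w p) := fun p q =>
    anti1 hW hX (m1_gr F w hW hX p) (m1_gr F w hW hX q)
  rcases hu with ⟨h1, h2⟩ | ⟨h1, h2⟩ | ⟨h1, h2⟩
  · rw [mul_assoc]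
    exact key _ _ _ _ h1 h2
  · have e : m1 F w (u 0) * m1 F w (u 1) * m1 F w (u 2) * m1 F w (u 3) =
        -(m1 F w (u 0) * m1 F w (u 2) * (m1 F w (u 1) * m1 F w (u 3))) := by
      rw [mul_assoc (m1 F w (u 0)), an (u 1) (u 2)]
      simp only [mul_neg, neg_mul, mul_assoc]
    rw [e]
    exact neg_mem (key _ _ _ _ h1 h2)
  · have e : m1 F w (u 0) * m1 F w (u 1) * m1 F w (u 2) * m1 F w (u 3) =
        m1 F w (u 0) * m1 F w (u 3) * (m1 F w (u 1) * m1 F w (u 2)) := by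
      rw [mul_assoc, mul_assoc, ← mul_assoc (m1 F w (u 1)), mul_assoc (m1 F w (u 1)),
        an (u 2) (u 3), mul_neg, ← mul_assoc, an (u 1) (u 3)]
      simp only [neg_mul, neg_neg, mul_assoc]
    rw [e]
    exact key _ _ _ _ h1 h2

include hW hX in
/-- the average over the signs -/
theorem avg_mem (c : (Fin 4 → Fin 4 × J) → ℂ) :
    ∑ ε : Fin 4 → Bool, wsum c id (mv F w ε) ∈ SS F w := by
  have e : ∑ ε : Fin 4 → Bool, wsum c id (mv F w ε) = ∑ u : Fin 4 → Fin 4 × J,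
      (c u * ∑ ε : Fin 4 → Bool, sgn (ε (u 0).1) * sgn (ε (u 1).1) * sgn (ε (u 2).1) *
        sgn (ε (u 3).1)) • (m1 F w (u 0) * m1 F w (u 1) * m1 F w (u 2) * m1 F w (u 3)) := by
    unfold wsum
    rw [Finset.sum_comm]
    refine Finset.sum_congr rfl fun u _ => ?_
    rw [Finset.mul_sum, Finset.sum_smul]
    refine Finset.sum_congr rfl fun ε _ => ?_
    simp only [id, mv_eq, smul_mul_smul_comm, smul_smul, mul_assoc]
  rw [e]
  refine Submodule.sum_mem _ fun u _ => ?_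
  by_cases hu : ((u 0).1 = (u 1).1 ∧ (u 2).1 = (u 3).1) ∨
      ((u 0).1 = (u 2).1 ∧ (u 1).1 = (u 3).1) ∨ ((u 0).1 = (u 3).1 ∧ (u 1).1 = (u 2).1)
  · exact Submodule.smul_mem _ _ (word_mem hW hX F w u hu)
  · rw [sum_sgn (fun t => (u t).1) hu, mul_zero, zero_smul]
    exact zero_mem _

end cone

section cones

variable (hW : IsWeilCohomology W 𝒱) (hX : 𝒱.mem X g) (hg : 0 < g) (Lw : Law W X)
  (hξ : ξ ∈ W.alg X 1) (hE : Eff0 W X g ξ E) (F : Fr W X g ξ J) (w : Fin 4 → J)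

include hE

theorem mulY0 {i j : ℕ} {x y : W.coh (Y4 X)} (hx : x ∈ Bip (E (Y4 X) i))
    (hy : y ∈ Bip (E (Y4 X) j)) : x * y ∈ Bip (E (Y4 X) (i + j)) :=
  Bip.mul (fun x hx y hy => Bip.of_mem (hE.mulY i j x y hx hy)) hx hy

theorem one0 : (1 : W.coh (Y4 X)) ∈ Bip (E (Y4 X) 0) := Bip.of_mem hE.one

theorem xi0 (i : Fin 4) (n : ℕ) : W.pull (pr4 X i) ξ ^ n ∈ Bip (E (Y4 X) n) := by
  induction n with
  | zero => rw [pow_zero]; exact one0 hE
  | succ n ih => rw [pow_succ]; exact mulY0 hE ih (hE.xi i)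

theorem Om0 : Om W g ξ ∈ Bip (E (Y4 X) (4 * (g - 1))) := by
  have h := mulY0 hE (mulY0 hE (mulY0 hE (xi0 hE 0 (g - 1)) (xi0 hE 1 (g - 1)))
    (xi0 hE 2 (g - 1))) (xi0 hE 3 (g - 1))
  have e : g - 1 + (g - 1) + (g - 1) + (g - 1) = 4 * (g - 1) := by ring
  rwa [e] at h

/-- the traces of the classes of the cone are real and nonnegative -/
theorem tr0 {x : W.coh (Y4 X)} (hx : x ∈ Bip (E (Y4 X) (4 * g))) :
    ∃ r : ℝ, 0 ≤ r ∧ W.tr (Y4 X) x = (r : ℂ) := by
  have h1 : 0 ≤ (W.tr (Y4 X) x).re := by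
    refine Bip.nonneg (Complex.reLm ∘ₗ (W.tr (Y4 X)).restrictScalars ℝ) (fun e he => ?_) hx
    obtain ⟨r, hr, hr'⟩ := hE.tr e he
    show 0 ≤ (W.tr (Y4 X) e).re
    rw [hr', Complex.ofReal_re]
    exact hr
  have h2 : 0 ≤ (W.tr (Y4 X) x).im := by
    refine Bip.nonneg (Complex.imLm ∘ₗ (W.tr (Y4 X)).restrictScalars ℝ) (fun e he => ?_) hx
    obtain ⟨r, hr, hr'⟩ := hE.tr e he
    show 0 ≤ (W.tr (Y4 X) e).im
    rw [hr', Complex.ofReal_im]
  have h3 : 0 ≤ -(W.tr (Y4 X) x).im := by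
    refine Bip.nonneg (-(Complex.imLm ∘ₗ (W.tr (Y4 X)).restrictScalars ℝ)) (fun e he => ?_) hx
    obtain ⟨r, hr, hr'⟩ := hE.tr e he
    show 0 ≤ -(W.tr (Y4 X) e).im
    rw [hr', Complex.ofReal_im, neg_zero]
  refine ⟨(W.tr (Y4 X) x).re, h1, Complex.ext ?_ ?_⟩
  · rw [Complex.ofReal_re]
  · rw [Complex.ofReal_im]; linarith

include hW hX Lw in
/-- the products of two slots are in the cone -/
theorem tt0 (p : Fin 6) : tt (sl F w) p ∈ Bip (E (Y4 X) 2) := by
  -- the class of one slot as a value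
  have hsq : ∀ i j : Fin 4, W.pull (pr4 X i) ξ * W.pull (pr4 X j) ξ ∈ Bip (E (Y4 X) 2) :=
    fun i j => mulY0 hE (hE.xi i) (hE.xi j)
  -- as a sum of words
  have key : ∀ i j : Fin 4, sl F w i * sl F w j ∈ Bip (E (Y4 X) 2) := by
    intro i j
    let cc : J × J → ℂ := fun q => (F.c * F.s q.1) * (F.c * F.s q.2)
    let wd : J × J → Fin 4 → Fin 4 × J := fun q => ![(i, q.1), (i, F.τ q.1), (j, q.2), (j, F.τ q.2)]
    have hw : ∀ x : Fin 4 × J → W.coh (Y4 X), wsum cc wd x =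
        (∑ a, ((F.c : ℂ) * F.s a) • (x (i, a) * x (i, F.τ a))) *
          (∑ b, ((F.c : ℂ) * F.s b) • (x (j, b) * x (j, F.τ b))) := by
      intro x
      unfold wsum
      rw [Finset.sum_mul_sum, Fintype.sum_prod_type]
      refine Finset.sum_congr rfl fun a _ => Finset.sum_congr rfl fun b _ => ?_
      simp only [cc, wd, Matrix.cons_val_zero, Matrix.cons_val_one, Matrix.cons_val,
        smul_mul_smul_comm, mul_assoc]
    have hxi : ∀ i : Fin 4, W.pull (pr4 X i) ξ =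
        ∑ a, ((F.c : ℂ) * F.s a) • (lett F (i, a) * lett F (i, F.τ a)) := by
      intro i
      conv_lhs => rw [F.ξ_eq]
      rw [map_smul, map_sum, Finset.smul_sum]
      refine Finset.sum_congr rfl fun a _ => ?_
      rw [map_smul, map_mul, smul_smul]
      rfl
    have h1 : wsum cc wd (lett F) ∈ Bip (E (Y4 X) 2) := by
      rw [hw, ← hxi, ← hxi]
      exact hsq i j
    have hm := slots_mem Lw F (fun i => pr4 X i) (zz F w (fun _ => 1)) (zz_conj F w _)
    have h2 := real_sub Lw F (hE.pullY · 2) _ _ h1 _ hm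
    have h3 : ∀ i : Fin 4, (∑ a, ((F.c : ℂ) * F.s a) • (m1 F w (i, a) * m1 F w (i, F.τ a))) =
        (2 * (F.c : ℂ)) • sl F w i := by
      intro i
      have e1 : m1 F w (i, w i) = vl F w i := by
        simp only [m1, zz_one, one_smul]
        rfl
      have e2 : m1 F w (i, F.τ (w i)) = lett F (i, F.τ (w i)) := by
        simp only [m1, zz_two, map_one, one_smul]
        rfl
      rw [Fintype.sum_eq_add (w i) (F.τ (w i)) (tau_ne F (w i)).symm]
      · rw [F.τ_τ, e1, e2, F.s_τ, lett_tau, mul_smul_comm, smul_mul_assoc, smul_smul, smul_smul,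
          anti1 hW hX (Vl_gr hW hX F w i) (vl_gr hW hX F w i), smul_neg, ← neg_smul, ← add_smul]
        congr 1
        linear_combination (2 * (F.c : ℂ)) * F.s_sq (w i)
      · rintro a ⟨ha1, ha2⟩
        have : m1 F w (i, a) = 0 := by
          simp only [m1, zz, if_neg ha1, if_neg ha2, zero_smul]
        rw [this, zero_mul, smul_zero]
    have h4 : wsum cc wd (fun p : Fin 4 × J => zz F w (fun _ => 1) p.1 p.2 •
        W.pull (pr4 X p.1) (F.f p.2)) = (((2 * F.c) ^ 2 : ℝ) : ℂ) • (sl F w i * sl F w j) := by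
      have h5 := hw (m1 F w)
      rw [h3, h3, smul_mul_smul_comm] at h5
      have h6 : ((2 * (F.c : ℂ)) * (2 * (F.c : ℂ))) = (((2 * F.c) ^ 2 : ℝ) : ℂ) := by
        push_cast
        ring
      rw [h6] at h5
      exact h5
    rw [h4, Complex.coe_smul] at h2
    have hc := F.c_pos
    have h7 := Bip.smul (r := ((2 * F.c) ^ 2)⁻¹) (by positivity) h2
    rwa [smul_smul, inv_mul_cancel₀ (by positivity), one_smul] at h7
  exact key _ _

include hW hX hg hξ Lw in
/-- **The classes of the span of the products of two slots that are in the cone.** -/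
theorem bound0 {x : W.coh (Y4 X)} (hx : x ∈ Bip (E (Y4 X) 2)) (hs : x ∈ SS F w) :
    ∃ N : ℝ, 0 < N ∧ (N : ℂ) • (∑ p, tt (sl F w) p) - x ∈ Bip (E (Y4 X) 2) := by
  obtain ⟨b, hb⟩ := (Submodule.mem_span_range_iff_exists_fun ℂ).1 hs
  -- the volume
  have hvol : ∃ r : ℝ, 0 < r ∧
      W.tr (Y4 X) (sl F w 0 * sl F w 1 * sl F w 2 * sl F w 3 * Om W g ξ) = (r : ℂ) := by
    refine ⟨F.κ ^ 4, pow_pos F.κ_pos 4, ?_⟩
    have hy : ∀ i, F.s (w i) • (F.f (w i) * F.f (F.τ (w i))) ∈ W.gr X (2 * 1) := fun i => by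
      have h := hW.mul_gr hX (F.f_gr (w i)) (F.f_gr (F.τ (w i)))
      exact Submodule.smul_mem _ _ h
    have h := tr_vol hW hX hξ (fun i => F.s (w i) • (F.f (w i) * F.f (F.τ (w i)))) hy
    simp only [F.tr] at h
    rw [Finset.prod_const, Finset.card_univ, Fintype.card_fin] at h
    have h3 : ∀ i, sl F w i =
        W.pull (pr4 X i) (F.s (w i) • (F.f (w i) * F.f (F.τ (w i)))) := fun i => by
      rw [sl, vl, Vl, lett, lett, mul_smul_comm, map_smul, map_mul]
    rw [h3, h3, h3, h3, h]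
    push_cast
    rfl
  obtain ⟨v, hv, hv'⟩ := hvol
  -- the coefficients
  have hcoef : ∀ p, ∃ r : ℝ, 0 ≤ r ∧ b p = (r : ℂ) := by
    intro p
    have h1 := mulY0 hE (mulY0 hE hx (tt0 hW hX Lw hE F w (Fin.rev p))) (Om0 hE)
    have e : 2 + 2 + 4 * (g - 1) = 4 * g := by omega
    rw [e] at h1
    obtain ⟨r, hr, hr'⟩ := tr0 hE h1
    have h2 : x * tt (sl F w) (Fin.rev p) = b p • (sl F w 0 * sl F w 1 * sl F w 2 * sl F w 3) := by
      rw [← hb, Finset.sum_mul, Finset.sum_eq_single p]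
      · rw [smul_mul_assoc, tt_rev _ (sl_comm hW hX F w)]
      · intro q _ hq
        rw [smul_mul_assoc, tt_ne _ (sl_comm hW hX F w) (sl_sq hW hX F w), smul_zero]
        intro h
        exact hq (Fin.rev_injective h.symm)
      · intro h
        exact absurd (Finset.mem_univ _) h
    rw [h2, smul_mul_assoc, map_smul, hv', smul_eq_mul] at hr'
    have hv0 : (v : ℂ) ≠ 0 := by exact_mod_cast hv.ne'
    refine ⟨r / v, div_nonneg hr hv.le, ?_⟩
    rw [Complex.ofReal_div, eq_div_iff hv0]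
    exact hr'
  choose r hr hr' using hcoef
  refine ⟨1 + ∑ p, r p, by
    have := Finset.sum_nonneg fun p (_ : p ∈ Finset.univ) => hr p
    linarith, ?_⟩
  have e : ((1 + ∑ p, r p : ℝ) : ℂ) • (∑ p, tt (sl F w) p) - x =
      ∑ p, (1 + ∑ q, r q - r p) • tt (sl F w) p := by
    rw [← hb, Complex.coe_smul, Finset.smul_sum, ← Finset.sum_sub_distrib]
    refine Finset.sum_congr rfl fun p _ => ?_
    rw [hr' p, Complex.coe_smul, sub_smul]
  rw [e]
  refine Bip.sum _ _ fun p _ => Bip.smul ?_ (tt0 hW hX Lw hE F w p)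
  have := Finset.single_le_sum (fun q _ => hr q) (Finset.mem_univ p)
  linarith

omit F w hg Lw hξ [DecidableEq J] [Fintype J] in
/-- the real span of the algebraic classes -/
theorem diff0 {z : W.coh (Y4 X)} (hz : z ∈ Submodule.span ℝ (W.alg (Y4 X) 2 : Set (W.coh (Y4 X)))) :
    ∃ e e' : W.coh (Y4 X), e ∈ Bip (E (Y4 X) 2) ∧ e' ∈ Bip (E (Y4 X) 2) ∧ e' ∈ W.gr (Y4 X) 4 ∧
      e ∈ W.gr (Y4 X) 4 ∧ z = e - e' := by
  have smulgr : ∀ (r : ℝ) (x : W.coh (Y4 X)), x ∈ W.gr (Y4 X) 4 → r • x ∈ W.gr (Y4 X) 4 := by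
    intro r x hx
    rw [← Complex.coe_smul]
    exact Submodule.smul_mem _ _ hx
  induction hz using Submodule.span_induction with
  | mem z hz =>
    obtain ⟨a, ha, b, hb, rfl⟩ := hE.gen 2 z hz
    exact ⟨a, b, Bip.of_mem ha, Bip.of_mem hb, hE.alg 2 b hb, hE.alg 2 a ha, rfl⟩
  | zero => exact ⟨0, 0, Bip.zero, Bip.zero, zero_mem _, zero_mem _, by simp⟩
  | add x y _ _ hx hy =>
    obtain ⟨a, a', h1, h2, h3, h4, rfl⟩ := hx
    obtain ⟨b, b', k1, k2, k3, k4, rfl⟩ := hy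
    exact ⟨a + b, a' + b', Bip.add h1 k1, Bip.add h2 k2, add_mem h3 k3, add_mem h4 k4, by abel⟩
  | smul r x _ hx =>
    obtain ⟨a, a', h1, h2, h3, h4, rfl⟩ := hx
    rcases le_total 0 r with hr | hr
    · exact ⟨r • a, r • a', Bip.smul hr h1, Bip.smul hr h2, smulgr r a' h3, smulgr r a h4,
        smul_sub r a a'⟩
    · have hr' : 0 ≤ -r := by linarith
      refine ⟨-r • a', -r • a, Bip.smul hr' h2, Bip.smul hr' h1, smulgr _ a h4, smulgr _ a' h3, ?_⟩
      rw [smul_sub, neg_smul, neg_smul]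
      abel

end cones

/-- **Row START0.** -/
theorem start0 : Start0Statement.{u, w} := by
  intro k _ W 𝒱 hW X g hX hg Lw ξ hξ hgen E hE J _ _ F hF w a b hz
  obtain ⟨e, e', he, he', hgr, -, hee⟩ := diff0 hE hz
  obtain ⟨c, hc⟩ := exists_wsum hW hX F hgen hF hgr
  -- the average
  have havg : ∀ ε : Fin 4 → Bool, wsum c id (mv F w ε) ∈ Bip (E (Y4 X) 2) := by
    intro ε
    have hm := slots_mem Lw F (fun i => pr4 X i) (zz F w (fun i => sgn (ε i))) (zz_conj F w _)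
    rw [hc] at he'
    exact real_sub Lw F (hE.pullY · 2) _ _ he' _ hm
  have hx : ∑ ε : Fin 4 → Bool, wsum c id (mv F w ε) ∈ Bip (E (Y4 X) 2) :=
    Bip.sum _ _ fun ε _ => havg ε
  obtain ⟨N, hN, hNx⟩ := bound0 hW hX hg Lw hξ hE F w hx (avg_mem hW hX F w c)
  -- the class `e` as a sum of words
  let cc : Fin 2 ⊕ (Fin 4 → Fin 4 × J) → ℂ := Sum.elim ![a, b] c
  let wd : Fin 2 ⊕ (Fin 4 → Fin 4 × J) → Fin 4 → Fin 4 × J :=
    Sum.elim ![fun i => (i, w i), fun i => (i, F.τ (w i))] id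
  have hw : ∀ x : Fin 4 × J → W.coh (Y4 X), wsum cc wd x =
      a • (x (0, w 0) * x (1, w 1) * x (2, w 2) * x (3, w 3)) +
      b • (x (0, F.τ (w 0)) * x (1, F.τ (w 1)) * x (2, F.τ (w 2)) * x (3, F.τ (w 3))) +
      wsum c id x := by
    intro x
    unfold wsum
    rw [Fintype.sum_sum_type, Fin.sum_univ_two]
    rfl
  have h1 : wsum cc wd (lett F) ∈ Bip (E (Y4 X) 2) := by
    rw [hw, ← hc]
    have : a • (lett F (0, w 0) * lett F (1, w 1) * lett F (2, w 2) * lett F (3, w 3)) +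
      b • (lett F (0, F.τ (w 0)) * lett F (1, F.τ (w 1)) * lett F (2, F.τ (w 2)) *
        lett F (3, F.τ (w 3))) + e' = e := by
      rw [eq_sub_iff_add_eq] at hee
      exact hee
    rw [this]
    exact he
  have hm := slots_mem Lw F (fun i => pr4 X i) (zz F w (fun _ => 1)) (zz_conj F w _)
  have h2 := real_sub Lw F (hE.pullY · 2) _ _ h1 _ hm
  have h3 : wsum cc wd (m1 F w) ∈ Bip (E (Y4 X) 2) := h2
  rw [hw] at h3
  have e1 : ∀ i, m1 F w (i, w i) = vl F w i := fun i => by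
    simp only [m1, zz_one, one_smul]
    rfl
  have e2 : ∀ i, m1 F w (i, F.τ (w i)) = F.s (w i) • Vl F w i := fun i => by
    rw [← lett_tau]
    simp only [m1, zz_two, map_one, one_smul]
    rfl
  simp only [e1, e2] at h3
  -- the sum of all the images
  have h4 : ∑ ε ∈ Finset.univ.erase (fun _ => false), wsum c id (mv F w ε) ∈ Bip (E (Y4 X) 2) :=
    Bip.sum _ _ fun ε _ => havg ε
  have h5 : ∑ ε : Fin 4 → Bool, wsum c id (mv F w ε) = wsum c id (m1 F w) +
      ∑ ε ∈ Finset.univ.erase (fun _ => false), wsum c id (mv F w ε) := by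
    rw [← Finset.add_sum_erase _ _ (Finset.mem_univ (fun _ => false)), mv_true]
  have h6 := Bip.add (Bip.add h3 h4) hNx
  refine ⟨N, hN, ?_⟩
  have e3 : ecl (vl F w) (Vl F w) (N : ℂ) a (b * ∏ i, F.s (w i)) =
      a • (vl F w 0 * vl F w 1 * vl F w 2 * vl F w 3) +
      b • (F.s (w 0) • Vl F w 0 * F.s (w 1) • Vl F w 1 * F.s (w 2) • Vl F w 2 *
        F.s (w 3) • Vl F w 3) + wsum c id (m1 F w) +
      ∑ ε ∈ Finset.univ.erase (fun _ => false), wsum c id (mv F w ε) +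
      ((N : ℂ) • (∑ p, tt (sl F w) p) - ∑ ε : Fin 4 → Bool, wsum c id (mv F w ε)) := by
    rw [h5, sum_tt, ecl, Fin.prod_univ_four]
    simp only [smul_mul_smul_comm, smul_smul, sl]
    abel
  rw [e3]
  exact h6

end

end Pool.Agent.Lib.MP_361a6f_ag.FL.PT0
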