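import Pool.Agent.Lib.MP_361a6f_ag.FL.PT0.Main
import Pool.Agent.Lib.MP_361a6f_ag.FL.PT0.B30
import Pool.Agent.Lib.MP_361a6f_ag.FL.PT0.Eff
import Pool.Agent.Lib.MP_361a6f_ag.FL.PT0.Start0

/-!
# Theorem PT0: the assembly
-/

open CategoryTheory AlgebraicGeometry MonoidalCategory CartesianMonoidalCategory

universe u v w w'

set_option autoImplicit false
set_option linter.unusedSectionVars false

namespace Pool.Agent.Lib.MP_361a6f_ag.FL.PT0

open Pool.Agent.Lib.MP_361a6f_ag.H3 Pool.Agent.Lib.MP_361a6f_ag.SQ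
  Pool.Agent.Lib.MP_361a6f_ag.PP Pool.Agent.Lib.MP_361a6f_ag.FL.E
  Pool.Agent.Lib.MP_361a6f_ag.FL.E.QS Pool.Agent.Lib.MP_361a6f_ag.FL.PT

noncomputable section

/-- rows CONE and TRACE -/
theorem eff0Row : Eff0Row.{u, w} := by
  intro k _ W 𝒱 hW X g hX h0 θ hθ hM
  exact ⟨law0 hW hX h0 hM, _, eff0 hW hX h0 hθ hM⟩

section hyp

variable {k : Type u} [Field k] {k' : Type v} [Field k'] {W : CohomologyData.{u, 0, w} k ℂ}
  {𝒱 : VarietyClass k} {W' : CohomologyData.{v, 0, w'} k' ℂ} {𝒱' : VarietyClass k'}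
  (hW : IsWeilCohomology W 𝒱) (hW' : IsWeilCohomology W' 𝒱') {D : EQ.Data W W'}
  (h : EQ.Hyp 𝒱 𝒱' D) (hE : EQ.Effective W' D.X' D.g (D.s (.leaf 0) D.ξ))
  (endo : ∀ z, W'.IsAlg (D.X'.prod D.X') D.g z → ∃ (n : ℕ) (f : Sch.Mor D.X' D.X'), 0 < n ∧
    ∀ x, W'.Deg D.X' 1 x → W'.pb f x = W'.scal (n : ℂ) (EQ.act W' z x))
  (c : Hst.Core W D.X D.g D.ξ)

include hE endo in
/-- `ψ` is positive semidefinite on the real span of the algebraic tensors of length four of the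
reduction. -/
theorem four0 (u : Ten (Sub c.D (0, 1)) 4)
    (hu : u ∈ Submodule.span ℝ {u | At1 (hstY hW hW' h c) 4 u}) :
    ∃ r : ℝ, 0 ≤ r ∧ psiT (subD c.D (0, 1)) u u = (r : ℂ) :=
  four_hyp0 hW hW' h hE endo c (b30_of start0) eff0Row u hu

include hW hW' h hE endo in
/-- `Q1` modulo numerical equivalence for everything that is generated by the classes of
codimension at most two. -/
theorem pp0 (P : Prd 1) (η : W.coh (EQ.pw D.X P)) (hη : IsPol W (fun _ => D.ξ) P η) (j : ℕ)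
    (z : W.coh (EQ.pw D.X P)) (hz : EQ.Made2 W D.X D.g P j z)
    (hj : 2 * j ≤ P.dim fun _ => D.g)
    (hp : EQ.NumTrivial W (EQ.pw D.X P) (W.cup (η ^ ((P.dim fun _ => D.g) - 2 * j + 1)) z))
    (hn : ¬ EQ.NumTrivial W (EQ.pw D.X P) z) :
    RatPos ((-1) ^ j * W.Tr (W.cup (η ^ ((P.dim fun _ => D.g) - 2 * j)) (W.cup z z))) :=
  ppl hW hW' h hE endo (b30_of start0) eff0Row P η hη j z hz hj hp hn

end hyp

end

end Pool.Agent.Lib.MP_361a6f_ag.FL.PT0
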