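import Pool.Agent.Lib.MP_361a6f_ag.FL.PT0.NormA
import Pool.Agent.Lib.MP_361a6f_ag.FL.PT0.Eff
import Pool.Agent.Lib.MP_361a6f_ag.FL.PT.Theta
import Pool.Agent.Lib.MP_361a6f_ag.FL.PT.EndPol
import Pool.Agent.Lib.MP_361a6f_ag.FL.E.FrobH
import Pool.Agent.Lib.MP_361a6f_ag.FL.E.Hst

/-!
# Theorem PT0: the eigenvalues of Frobenius have the absolute value `√q`
-/

open CategoryTheory AlgebraicGeometry MonoidalCategory CartesianMonoidalCategory

universe u w

set_option autoImplicit false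
set_option linter.unusedSectionVars false

namespace Pool.Agent.Lib.MP_361a6f_ag.FL.PT0

open Pool.Agent.Lib.MP_361a6f_ag.H3 Pool.Agent.Lib.MP_361a6f_ag.SQ
  Pool.Agent.Lib.MP_361a6f_ag.PP Pool.Agent.Lib.MP_361a6f_ag.FL.PT Polynomial

variable {k : Type u} [Field k] {W : CohomologyData.{u, 0, w} k ℂ} {𝒱 : VarietyClass k}
  (hW : IsWeilCohomology W 𝒱) {X : Sch k} {g : ℕ} (hX : 𝒱.mem X g)
  (h0 : ∀ x ∈ W.gr X 0, ∃ c : ℂ, x = c • (1 : W.coh X)) {θ : W.coh X}
  (hθ : PositiveDivisor W X g θ) (hM : EQ.Effective W X g θ)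

include hW hX h0 hθ hM

/-- the trace is nonnegative on the cone in top degree -/
theorem cone_tr (P0 : Prd 1) {x : W.coh (EQ.pw X P0)}
    (hx : x ∈ cone W X g (EQ.pw X P0) (P0.dim fun _ => g)) :
    ∃ r : ℝ, 0 ≤ r ∧ W.tr (EQ.pw X P0) x = (r : ℂ) := by
  obtain ⟨ω, hω, h1⟩ := exists_point hW hX hθ
  have h0' := mem_pw hX P0
  induction hx using AddSubmonoid.closure_induction with
  | mem x hx =>
    obtain ⟨P, Q', φ, β, hβ, rfl⟩ := hx
    have hP := mem_pw hX P
    have e : (P0.dim fun _ => g) + (P.dim fun _ => g) = (Prd.prod P0 P).dim fun _ => g := rfl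
    rw [e] at hβ
    obtain ⟨q, hq, h2⟩ := tr_pull_eff hW hX h0 hM (hW.alg_gr hX (eff_alg hω)) h1 (.prod P0 P) Q'
      φ hβ
    have h3 := hW.push_adj (𝒱.prod h0' hP) h0' (fst (EQ.pw X P0) (EQ.pw X P)) (W.pull φ β) 1
    rw [mul_one, map_one, mul_one] at h3
    refine ⟨(q : ℝ), by exact_mod_cast hq, h3.trans (h2.trans ?_)⟩
    push_cast
    rfl
  | zero => exact ⟨0, le_rfl, by simp⟩
  | add x y _ _ hx hy =>
    obtain ⟨r, hr, e⟩ := hx
    obtain ⟨s, hs, e'⟩ := hy
    exact ⟨r + s, add_nonneg hr hs, by rw [map_add, e, e']; push_cast; rfl⟩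

/-- the same for the bipolar -/
theorem bip_tr {x : W.coh X} (hx : x ∈ Bip (cone W X g X g : Set (W.coh X))) :
    ∃ r : ℝ, 0 ≤ r ∧ W.tr X x = (r : ℂ) := by
  have h1 : 0 ≤ (W.tr X x).re := by
    refine Bip.nonneg (Complex.reLm ∘ₗ (W.tr X).restrictScalars ℝ) (fun e he => ?_) hx
    obtain ⟨r, hr, hr'⟩ := cone_tr hW hX h0 hθ hM (.leaf 0) he
    have hr'' : W.tr X e = (r : ℂ) := hr'
    show 0 ≤ (W.tr X e).re
    rw [hr'', Complex.ofReal_re]
    exact hr
  have h2 : 0 ≤ (W.tr X x).im := by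
    refine Bip.nonneg (Complex.imLm ∘ₗ (W.tr X).restrictScalars ℝ) (fun e he => ?_) hx
    obtain ⟨r, hr, hr'⟩ := cone_tr hW hX h0 hθ hM (.leaf 0) he
    have hr'' : W.tr X e = (r : ℂ) := hr'
    show 0 ≤ (W.tr X e).im
    rw [hr'', Complex.ofReal_im]
  have h3 : 0 ≤ -(W.tr X x).im := by
    refine Bip.nonneg (-(Complex.imLm ∘ₗ (W.tr X).restrictScalars ℝ)) (fun e he => ?_) hx
    obtain ⟨r, hr, hr'⟩ := cone_tr hW hX h0 hθ hM (.leaf 0) he
    have hr'' : W.tr X e = (r : ℂ) := hr'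
    show 0 ≤ -(W.tr X e).im
    rw [hr'', Complex.ofReal_im, neg_zero]
  refine ⟨(W.tr X x).re, h1, ?_⟩
  apply Complex.ext
  · rw [Complex.ofReal_re]
  · rw [Complex.ofReal_im]
    linarith

theorem theta_bip : θ ∈ Bip (cone W X g X 1 : Set (W.coh X)) := by
  obtain ⟨ω, hω, h1⟩ := exists_point hW hX hθ
  obtain ⟨N, hN, h2⟩ := hM.divisor
  have h3 : W.scal (N : ℂ) θ ∈ cone W X g X 1 := eff_cone hW hX hM hω h1 (.leaf 0) h2
  have h5 : θ = ((N : ℝ)⁻¹ : ℝ) • W.scal (N : ℂ) θ := by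
    rw [← Complex.coe_smul, smul_smul]
    have : (N : ℂ) ≠ 0 := by exact_mod_cast hN.ne'
    push_cast
    rw [inv_mul_cancel₀ this, one_smul]
  rw [h5]
  exact Bip.smul (by positivity) (Bip.of_mem h3)

theorem theta_pow_bip (j : ℕ) : θ ^ j ∈ Bip (cone W X g X j : Set (W.coh X)) := by
  obtain ⟨ω, hω, h1⟩ := exists_point hW hX hθ
  induction j with
  | zero =>
    rw [pow_zero]
    exact Bip.of_mem (eff_cone hW hX hM hω h1 (.leaf 0) (hM.one (.leaf 0)))
  | succ j ih =>
    rw [pow_succ]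
    exact Bip.mul (fun x hx y hy => Bip.of_mem (cone_mul hW hX hM hX hx hy)) ih
      (theta_bip hW hX h0 hθ hM)

omit hW hX h0 hθ hM in
/-- the values of letters that come from endomorphisms -/
def LX {J : Type} (W : CohomologyData.{u, 0, w} k ℂ) {X : Sch k} (e : J → W.coh X) :
    Set (J → W.coh X) := {m | ∃ h : X ⟶ X, ∀ j, m j = W.pull h (e j)}

section lx

variable {J : Type} [Fintype J] [DecidableEq J] {e : J → W.coh X} (he : ∀ j, e j ∈ W.gr X 1)
  (Lw : Law W X)

omit hW hX h0 hθ hM [Fintype J] [DecidableEq J]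

include he Lw

theorem LX_zero : (0 : J → W.coh X) ∈ LX W e :=
  ⟨toUnit X ≫ Lw.e, fun j => by rw [W.pull_comp, Lw.one _ (he j), map_zero]; rfl⟩

theorem LX_add : ∀ x ∈ LX W e, ∀ y ∈ LX W e, x + y ∈ LX W e := by
  rintro x ⟨h, hh⟩ y ⟨h', hh'⟩
  refine ⟨lift h h' ≫ Lw.m, fun j => ?_⟩
  rw [W.pull_comp, Lw.mul _ (he j), map_add, ← W.pull_comp, ← W.pull_comp, lift_fst, lift_snd,
    Pi.add_apply, hh, hh']

theorem LX_neg : ∀ x ∈ LX W e, ∃ N : ℕ, 0 < N ∧ -(N • x) ∈ LX W e := by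
  rintro x ⟨h, hh⟩
  refine ⟨Lw.N, Lw.pos, h ≫ Lw.n, fun j => ?_⟩
  rw [W.pull_comp, Lw.neg _ (he j), map_neg, map_smul, Pi.neg_apply, Pi.smul_apply, hh,
    Nat.cast_smul_eq_nsmul]

omit he Lw in
/-- real polynomials in Frobenius -/
theorem LX_poly {F : X ⟶ X} {a : J → ℂ} (hF : ∀ j, W.pull F (e j) = a j • e j)
    (p : Polynomial ℝ) : (fun j => aeval (a j) p • e j) ∈ Submodule.span ℝ (LX W e) := by
  have hpow : ∀ n : ℕ, ∃ h : X ⟶ X, ∀ j, W.pull h (e j) = a j ^ n • e j := by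
    intro n
    induction n with
    | zero => exact ⟨𝟙 X, fun j => by rw [W.pull_id, pow_zero, one_smul]⟩
    | succ n ih =>
      obtain ⟨h, hh⟩ := ih
      exact ⟨h ≫ F, fun j => by rw [W.pull_comp, hF, map_smul, hh, smul_smul, pow_succ']⟩
  induction p using Polynomial.induction_on' with
  | add p r hp hr =>
    have e1 : (fun j => aeval (a j) (p + r) • e j) =
        (fun j => aeval (a j) p • e j) + fun j => aeval (a j) r • e j := by
      funext j
      rw [map_add, add_smul]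
      rfl
    rw [e1]
    exact add_mem hp hr
  | monomial n c =>
    obtain ⟨h, hh⟩ := hpow n
    have e1 : (fun j => aeval (a j) (monomial n c) • e j) = c • fun j => W.pull h (e j) := by
      funext j
      rw [aeval_monomial, Pi.smul_apply, hh, ← Complex.coe_smul, smul_smul]
      rfl
    rw [e1]
    exact Submodule.smul_mem _ _ (Submodule.subset_span ⟨h, fun j => rfl⟩)

end lx

/-- real substitutions in the polarisation -/
theorem theta_sub (Lw : Law W X) {J : Type} [Fintype J] [DecidableEq J] {e : J → W.coh X}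
    (he : ∀ j, e j ∈ W.gr X 1) {τ : J → J} {s : J → ℂ} {C : ℂ}
    (hθe : θ = C • ∑ j, s j • (e j * e (τ j))) {m : J → W.coh X}
    (hm : m ∈ Submodule.span ℝ (LX W e)) :
    C • ∑ j, s j • (m j * m (τ j)) ∈ Bip (cone W X g X 1 : Set (W.coh X)) := by
  have key : ∀ x : J → W.coh X, PT.form (d := 2)
      (fun u => if u 1 = τ (u 0) then C * s (u 0) else 0) x = C • ∑ j, s j • (x j * x (τ j)) := by
    intro x
    unfold PT.form
    rw [← (finTwoArrowEquiv J).symm.sum_comp, Fintype.sum_prod_type, Finset.smul_sum]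
    refine Finset.sum_congr rfl fun j _ => ?_
    rw [Finset.sum_eq_single (τ j)]
    · simp [finTwoArrowEquiv, smul_smul]
    · intro j' _ hj'
      simp [finTwoArrowEquiv, hj']
    · intro h
      exact absurd (Finset.mem_univ _) h
  rw [← key]
  refine Bip.form (M := J → W.coh X) (E := (cone W X g X 1 : Set (W.coh X))) _ LinearMap.id
    (LX W e) (LX_zero he Lw) (LX_add he Lw) (LX_neg he Lw) ?_ m hm
  rintro m ⟨h, hh⟩
  have e1 : ((LinearMap.id : (J → W.coh X) →ₗ[ℝ] (J → W.coh X)) m) = fun j => W.pull h (e j) :=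
    funext hh
  rw [e1, ← map_form, key, ← hθe]
  exact Bip.map ((W.pull h).toLinearMap.restrictScalars ℝ)
    (fun y hy => Bip.of_mem (cone_pull hW hX hX hX h hy)) (theta_bip hW hX h0 hθ hM)

/-- the form on `H^1` and Frobenius -/
theorem tr_frob {q : ℕ} (hq : 0 < q) {F : X ⟶ X} (hF : W.pull F θ = (q : ℂ) • θ) (hg : 0 < g)
    (u v : W.coh X) : W.tr X (θ ^ (g - 1) * (W.pull F u * W.pull F v)) =
      (q : ℂ) * W.tr X (θ ^ (g - 1) * (u * v)) := by
  have hq0 : (q : ℂ) ≠ 0 := by exact_mod_cast hq.ne'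
  obtain ⟨r, hr, hr'⟩ := hθ.2
  have ht : W.tr X (θ ^ g) ≠ 0 := by
    have h1 : W.tr X (θ ^ g) = (r : ℂ) := hr'
    rw [h1]
    exact_mod_cast hr.ne'
  have h1 := E.tr_of_pol hW hX h0 (hW.alg_gr hX hθ.1) ht (φ := (W.pull F).toLinearMap)
    (map_one (W.pull F)) (fun x y => map_mul (W.pull F) x y) (fun i x hx => hW.pull_gr hX hX F hx) hF
    (θ ^ (g - 1) * (u * v))
  have h2 : W.pull F (θ ^ (g - 1) * (u * v)) =
      (q : ℂ) ^ (g - 1) • (θ ^ (g - 1) * (W.pull F u * W.pull F v)) := by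
    rw [map_mul, map_pow, hF, _root_.smul_pow, map_mul, smul_mul_assoc]
  have h3 : (W.pull F).toLinearMap (θ ^ (g - 1) * (u * v)) =
      W.pull F (θ ^ (g - 1) * (u * v)) := rfl
  rw [h3, h2, map_smul, smul_eq_mul] at h1
  have h4 : (q : ℂ) ^ g = (q : ℂ) ^ (g - 1) * q := by
    rw [← pow_succ]
    congr 1
    omega
  rw [h4, mul_assoc] at h1
  exact mul_left_cancel₀ (pow_ne_zero _ hq0) h1

/-- **The eigenvalues of Frobenius have the absolute value `√q`**, if there are `2 g` of them. -/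
theorem norm_sq {q : ℕ} (hq : 0 < q) {F : X ⟶ X} (hF : W.pull F θ = (q : ℂ) • θ)
    {a : Fin (2 * g) → ℂ} (ha : Function.Injective a) {x : Fin (2 * g) → W.coh X}
    (hx : ∀ i, x i ∈ W.gr X 1) (hx0 : ∀ i, x i ≠ 0) (hFx : ∀ i, W.pull F (x i) = a i • x i)
    (i : Fin (2 * g)) : ‖a i‖ ^ 2 = q := by
  classical
  have hg : 0 < g := by
    have := i.pos
    omega
  have hq0 : (q : ℂ) ≠ 0 := by exact_mod_cast hq.ne'
  have hU : UnitalLaw X := by
    obtain ⟨m, e, h1, h2, -⟩ := hM.group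
    exact ⟨m, e, h1, h2⟩
  have hA : AbelianType W X g := abelianType_of_unital hW hX h0 hU hθ
  have hu := unital hW hX h0 hU hθ
  obtain ⟨c⟩ := E.Hst.exists_core hW hX hθ.1 hu.1 hu.2.1
  obtain ⟨Lw⟩ := law0 hW hX h0 hM
  have D := c.lam
  set B : W.coh X → W.coh X → ℂ := fun u v => psi W X θ c.Lam D.slm.internal u v with hB
  -- the eigenvectors form a basis
  have hfin : Module.Finite ℂ (W.coh X) := hW.finite hX
  have hli : LinearIndependent ℂ x := by
    refine Module.End.eigenvectors_linearIndependent' (W.pull F).toLinearMap a ha x fun i => ?_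
    rw [Module.End.hasEigenvector_iff, Module.End.mem_eigenspace_iff]
    exact ⟨hFx i, hx0 i⟩
  have hspan : W.gr X 1 ≤ Submodule.span ℂ (Set.range x) := by
    have h1 : Submodule.span ℂ (Set.range x) ≤ W.gr X 1 := by
      rw [Submodule.span_le]
      rintro _ ⟨i, rfl⟩
      exact hx i
    refine (Submodule.eq_of_le_of_finrank_eq h1 ?_).ge
    rw [finrank_span_eq_card hli, Fintype.card_fin, hA.rank]
  -- the form
  have hBe : ∀ u ∈ W.gr X 1, ∀ v ∈ W.gr X 1,
      B u v = -(((g - 1).factorial : ℂ)⁻¹ * W.tr X (θ ^ (g - 1) * (u * v))) :=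
    fun u hu v hv => Theta.psi_eq hW hX hA hθ D hg hu hv
  have hBF : ∀ i j, B (x i) (x j) ≠ 0 → a i * a j = q := by
    intro i j hij
    have h1 := tr_frob hW hX h0 hθ hM hq hF hg (x i) (x j)
    rw [hFx, hFx, smul_mul_smul_comm, mul_smul_comm, map_smul, smul_eq_mul] at h1
    have h2 : W.tr X (θ ^ (g - 1) * (x i * x j)) ≠ 0 := by
      intro h2
      apply hij
      rw [hBe _ (hx i) _ (hx j), h2, mul_zero, neg_zero]
    exact mul_right_cancel₀ h2 h1
  have hBs : ∀ u ∈ W.gr X 1, ∀ v ∈ W.gr X 1, B v u = -B u v := by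
    intro u hu v hv
    have h1 := hW.comm_gr hX hv hu
    rw [mul_one, pow_one, neg_one_smul] at h1
    rw [hBe v hv u hu, hBe u hu v hv, h1, mul_neg, map_neg]
    ring
  have hnd : ∀ i, ∃ j, B (x i) (x j) ≠ 0 := by
    intro i
    by_contra hne
    push Not at hne
    apply hx0 i
    have h1 : (⟨x i, hx i⟩ : W.gr X 1) = 0 := by
      refine GB.psiG_nondeg hW staB hX hθ.1 D 1 _ fun y => ?_
      obtain ⟨b, hb⟩ := (Submodule.mem_span_range_iff_exists_fun ℂ).1 (hspan y.2)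
      have h2 : y = ∑ j, b j • (⟨x j, hx j⟩ : W.gr X 1) := by
        apply Subtype.ext
        rw [← hb]
        push_cast
        rfl
      rw [h2, map_sum]
      refine Finset.sum_eq_zero fun j _ => ?_
      rw [map_smul, GB.psiG_apply]
      have h3 : psi W X θ c.Lam D.slm.internal (x i) (x j) = 0 := hne j
      show b j • psi W X θ c.Lam D.slm.internal (x i) (x j) = 0
      rw [h3, smul_zero]
    exact congrArg Subtype.val h1
  choose τ hτ using hnd
  have haτ : ∀ i, a i * a (τ i) = q := fun i => hBF i _ (hτ i)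
  have ha0 : ∀ i, a i ≠ 0 := fun i h => by
    have h1 := haτ i
    rw [h, zero_mul] at h1
    exact hq0 h1.symm
  have huniq : ∀ i j, a i * a j = q → j = τ i := fun i j h =>
    ha (mul_left_cancel₀ (ha0 i) (h.trans (haτ i).symm))
  have hττ : ∀ i, τ (τ i) = i := fun i => (huniq (τ i) i (by rw [mul_comm]; exact haτ i)).symm
  have hτne : ∀ i, τ i ≠ i := by
    intro i h
    apply hτ i
    rw [h]
    have h1 := hBs _ (hx i) _ (hx i)
    have h2 : (2 : ℂ) * B (x i) (x i) = 0 := by linear_combination h1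
    simpa using h2
  -- the adapted basis
  set cc : Fin (2 * g) → ℂ := fun i => if i < τ i then (B (x i) (x (τ i)))⁻¹ else 1 with hcc
  set s : Fin (2 * g) → ℂ := fun i => if i < τ i then 1 else -1 with hs
  have hcc0 : ∀ i, cc i ≠ 0 := by
    intro i
    simp only [hcc]
    split_ifs
    · exact inv_ne_zero (hτ i)
    · exact one_ne_zero
  set e : Fin (2 * g) → W.coh X := fun i => cc i • x i with he
  have hegr : ∀ i, e i ∈ W.gr X 1 := fun i => Submodule.smul_mem _ _ (hx i)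
  have hss : ∀ i, s i * s i = 1 := by
    intro i
    simp only [hs]
    split_ifs <;> norm_num
  have hsτ : ∀ i, s (τ i) = -s i := by
    intro i
    simp only [hs, hττ]
    rcases lt_trichotomy i (τ i) with h | h | h
    · rw [if_neg (not_lt.2 h.le), if_pos h]
    · exact absurd h.symm (hτne i)
    · rw [if_pos h, if_neg (not_lt.2 h.le), neg_neg]
  have hψ : ∀ i j, psi W X θ c.Lam D.slm.internal (e i) (e j) = if j = τ i then s i else 0 := by
    intro i j
    have h1 : psi W X θ c.Lam D.slm.internal (e i) (e j) = cc i * cc j * B (x i) (x j) := by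
      show B (e i) (e j) = _
      rw [hBe _ (hegr i) _ (hegr j), hBe _ (hx i) _ (hx j)]
      rw [show e i = cc i • x i from rfl, show e j = cc j • x j from rfl, smul_mul_smul_comm,
        mul_smul_comm, map_smul, smul_eq_mul]
      ring
    rw [h1]
    by_cases hj : j = τ i
    · rw [if_pos hj, hj]
      simp only [hcc, hs, hττ]
      rcases lt_trichotomy i (τ i) with h | h | h
      · rw [if_pos h, if_neg (not_lt.2 h.le), if_pos h, mul_one, inv_mul_cancel₀ (hτ i)]
      · exact absurd h.symm (hτne i)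
      · rw [if_neg (not_lt.2 h.le), if_pos h, if_neg (not_lt.2 h.le), one_mul,
          hBs _ (hx i) _ (hx (τ i)), inv_neg, neg_mul, inv_mul_cancel₀ (hτ i)]
    · rw [if_neg hj]
      have h2 : B (x i) (x j) = 0 := by
        by_contra h2
        exact hj (huniq i j (hBF i j h2))
      rw [h2, mul_zero]
  have hspe : ∀ v ∈ W.gr X 1, v ∈ Submodule.span ℂ (Set.range e) := by
    intro v hv
    have h1 : Submodule.span ℂ (Set.range x) ≤ Submodule.span ℂ (Set.range e) := by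
      rw [Submodule.span_le]
      rintro _ ⟨i, rfl⟩
      have h2 : x i = (cc i)⁻¹ • e i := by
        simp only [he]
        rw [smul_smul, inv_mul_cancel₀ (hcc0 i), one_smul]
      rw [h2]
      exact Submodule.smul_mem _ _ (Submodule.subset_span ⟨i, rfl⟩)
    exact h1 (hspan hv)
  obtain ⟨C, κ, hC, hκ, h1, h2⟩ := Theta.facts hW hX hA hθ D (e := e) hegr hss hττ hsτ hψ hspe hg
  have hFe : ∀ i, W.pull F (e i) = a i • e i := fun i => by
    simp only [he]
    rw [map_smul, hFx, smul_comm]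
  refine norm_of_pos ha hττ (q := (q : ℝ)) (by exact_mod_cast hq)
    (fun i => by rw [haτ]; push_cast; rfl) (fun p => ?_) i
  have hm := LX_poly (W := W) hFe p
  have h3 := theta_sub hW hX h0 hθ hM Lw hegr h1 hm
  have h4 : (C : ℂ) • ∑ j, (-s j) • ((aeval (a j) p • e j) * (aeval (a (τ j)) p • e (τ j))) *
      θ ^ (g - 1) ∈ Bip (cone W X g X g : Set (W.coh X)) := by
    have h5 := Bip.mul (fun x hx y hy => Bip.of_mem (cone_mul hW hX hM hX hx hy)) h3
      (theta_pow_bip hW hX h0 hθ hM (g - 1))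
    have e5 : 1 + (g - 1) = g := by omega
    rw [e5, smul_mul_assoc, Finset.sum_mul] at h5
    exact h5
  obtain ⟨r, hr, hr'⟩ := bip_tr hW hX h0 hθ hM h4
  have h6 : (C : ℂ) * ((κ : ℂ) * ∑ j, aeval (a j) p * aeval (a (τ j)) p) = (r : ℂ) := by
    rw [← hr', map_smul, map_sum, smul_eq_mul, Finset.mul_sum]
    congr 1
    refine Finset.sum_congr rfl fun j _ => ?_
    rw [smul_mul_smul_comm, smul_comm, smul_mul_assoc, map_smul, h2, smul_eq_mul, mul_comm]
  refine ⟨r / (C * κ), by positivity, ?_⟩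
  have hC0 : (C : ℂ) ≠ 0 := by exact_mod_cast hC.ne'
  have hκ0 : (κ : ℂ) ≠ 0 := by exact_mod_cast hκ.ne'
  push_cast
  rw [← h6]
  field_simp

end Pool.Agent.Lib.MP_361a6f_ag.FL.PT0
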