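import Mathlib

/-!
# Theorem PT0: the absolute value of the eigenvalues of Frobenius, the algebra
-/

set_option autoImplicit false

namespace Pool.Agent.Lib.MP_361a6f_ag.FL.PT0

open Polynomial

/-- real and imaginary parts of a polynomial -/
theorem exists_parts (P : Polynomial ℂ) : ∃ U V : Polynomial ℝ, ∀ z : ℂ,
    P.eval z = aeval z U + Complex.I * aeval z V ∧
      (starRingEnd ℂ) (P.eval ((starRingEnd ℂ) z)) = aeval z U - Complex.I * aeval z V := by
  refine ⟨∑ n ∈ P.support, monomial n (P.coeff n).re, ∑ n ∈ P.support, monomial n (P.coeff n).im,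
    fun z => ⟨?_, ?_⟩⟩
  · rw [eval_eq_sum, Polynomial.sum, map_sum, map_sum, Finset.mul_sum, ← Finset.sum_add_distrib]
    refine Finset.sum_congr rfl fun n _ => ?_
    rw [aeval_monomial, aeval_monomial]
    show P.coeff n * z ^ n = ((P.coeff n).re : ℂ) * z ^ n + Complex.I * (((P.coeff n).im : ℂ) * z ^ n)
    conv_lhs => rw [← Complex.re_add_im (P.coeff n)]
    ring
  · rw [eval_eq_sum, Polynomial.sum, map_sum, map_sum, map_sum, Finset.mul_sum,
      ← Finset.sum_sub_distrib]
    refine Finset.sum_congr rfl fun n _ => ?_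
    rw [aeval_monomial, aeval_monomial, map_mul, map_pow, Complex.conj_conj]
    show (starRingEnd ℂ) (P.coeff n) * z ^ n =
      ((P.coeff n).re : ℂ) * z ^ n - Complex.I * (((P.coeff n).im : ℂ) * z ^ n)
    conv_lhs => rw [← Complex.re_add_im (P.coeff n)]
    simp only [map_add, map_mul, Complex.conj_ofReal, Complex.conj_I]
    ring

/-- **The absolute value of the eigenvalues.** -/
theorem norm_of_pos {ι : Type} [Fintype ι] [DecidableEq ι] {a : ι → ℂ}
    (ha : Function.Injective a) {τ : ι → ι} (hτ : ∀ i, τ (τ i) = i) {q : ℝ}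
    (hq : 0 < q) (haτ : ∀ i, a i * a (τ i) = q)
    (hpos : ∀ p : Polynomial ℝ, ∃ r : ℝ, 0 ≤ r ∧
      ∑ i, aeval (a i) p * aeval (a (τ i)) p = (r : ℂ)) (i : ι) : ‖a i‖ ^ 2 = q := by
  classical
  set b : ι → ℂ := fun j => (starRingEnd ℂ) (a (τ j)) with hb
  by_cases hi : a i = b i
  · have h1 : (starRingEnd ℂ) (a i) = a (τ i) := by
      rw [hi, hb]
      exact Complex.conj_conj _
    have h2 : a i * (starRingEnd ℂ) (a i) = (q : ℂ) := by rw [h1, haτ]
    rw [Complex.mul_conj, Complex.normSq_eq_norm_sq] at h2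
    exact_mod_cast h2
  exfalso
  set S : Finset ℂ := Finset.univ.image a ∪ Finset.univ.image b with hS
  set f : ℂ → ℂ := fun z => (if z = a i then 1 else 0) - (if z = b i then 1 else 0) with hf
  obtain ⟨U, V, hUV⟩ := exists_parts (Lagrange.interpolate S id f)
  have hev : ∀ z ∈ S, (Lagrange.interpolate S id f).eval z = f z := fun z hz =>
    Lagrange.eval_interpolate_at_node (v := id) f (Function.injective_id.injOn) hz
  have haS : ∀ j, a j ∈ S := fun j => Finset.mem_union_left _ (Finset.mem_image_of_mem _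
    (Finset.mem_univ j))
  have hbS : ∀ j, b j ∈ S := fun j => Finset.mem_union_right _ (Finset.mem_image_of_mem _
    (Finset.mem_univ j))
  -- the hermitian form
  obtain ⟨r, hr, hr'⟩ := hpos U
  obtain ⟨t, ht, ht'⟩ := hpos V
  have h1 : ∑ j, f (a j) * (starRingEnd ℂ) (f (b j)) = ((r + t : ℝ) : ℂ) := by
    have h2 : ∀ j, f (a j) * (starRingEnd ℂ) (f (b j)) =
        aeval (a j) U * aeval (a (τ j)) U + aeval (a j) V * aeval (a (τ j)) V +
          (Complex.I * (aeval (a j) V * aeval (a (τ j)) U) -
            Complex.I * (aeval (a j) U * aeval (a (τ j)) V)) := by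
      intro j
      have h3 := (hUV (a j)).1
      have h4 := (hUV (a (τ j))).2
      rw [hev _ (haS j)] at h3
      have h5 : (starRingEnd ℂ) (a (τ j)) = b j := rfl
      rw [h5, hev _ (hbS j)] at h4
      rw [h3, h4]
      have hI := Complex.I_mul_I
      linear_combination (-(aeval (a j) V * aeval (a (τ j)) V)) * hI
    rw [Finset.sum_congr rfl fun j _ => h2 j, Finset.sum_add_distrib, Finset.sum_add_distrib,
      Finset.sum_sub_distrib, ← Finset.mul_sum, ← Finset.mul_sum, hr', ht']
    have h6 : ∑ j, aeval (a j) V * aeval (a (τ j)) U =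
        ∑ j, aeval (a j) U * aeval (a (τ j)) V := by
      rw [← Equiv.sum_comp ⟨τ, τ, hτ, hτ⟩ fun j => aeval (a j) V * aeval (a (τ j)) U]
      refine Finset.sum_congr rfl fun j _ => ?_
      show aeval (a (τ j)) V * aeval (a (τ (τ j))) U = _
      rw [hτ, mul_comm]
    rw [h6, sub_self, add_zero]
    push_cast
    rfl
  -- the terms are negative
  have hval : ∀ j, ∃ n : ℝ, n ≤ 0 ∧ f (a j) * (starRingEnd ℂ) (f (b j)) = (n : ℂ) ∧
      (j = i → n = -1) := by
    intro j
    by_cases hj : j = i
    · subst hj
      refine ⟨-1, by norm_num, ?_, fun _ => rfl⟩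
      simp only [hf, if_neg hi, if_neg (Ne.symm hi), if_pos]
      norm_num
    · have hji : a j ≠ a i := fun h => hj (ha h)
      by_cases hjb : a j = b i
      · -- `b j = a i`
        have h7 : b j = a i := by
          have h8 : a (τ j) = (starRingEnd ℂ) (a i) := by
            have h9 := haτ j
            rw [hjb] at h9
            have h10 := congrArg (starRingEnd ℂ) (haτ i)
            rw [map_mul, Complex.conj_ofReal, mul_comm] at h10
            have h11 : (starRingEnd ℂ) (a (τ i)) * a (τ j) =
                (starRingEnd ℂ) (a (τ i)) * (starRingEnd ℂ) (a i) := by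
              have h12 : b i = (starRingEnd ℂ) (a (τ i)) := rfl
              rw [h10, ← h12, h9]
            have h0 : (starRingEnd ℂ) (a (τ i)) ≠ 0 := by
              intro h0
              rw [h0, zero_mul] at h10
              exact hq.ne (by exact_mod_cast h10)
            exact mul_left_cancel₀ h0 h11
          show (starRingEnd ℂ) (a (τ j)) = a i
          rw [h8, Complex.conj_conj]
        refine ⟨-1, by norm_num, ?_, fun h => absurd h hj⟩
        simp only [hf, if_neg hji, if_pos hjb, h7, if_pos, if_neg hi]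
        norm_num
      · refine ⟨0, le_rfl, ?_, fun h => absurd h hj⟩
        simp only [hf, if_neg hji, if_neg hjb]
        norm_num
  choose n hn hn' hni using hval
  have h20 : ((∑ j, n j : ℝ) : ℂ) = ((r + t : ℝ) : ℂ) := by
    rw [← h1]
    push_cast
    exact Finset.sum_congr rfl fun j _ => (hn' j).symm
  have h21 : ∑ j, n j = r + t := by exact_mod_cast h20
  have h22 : ∑ j, n j ≤ n i := by
    rw [← Finset.add_sum_erase _ _ (Finset.mem_univ i)]
    have := Finset.sum_nonpos fun j (_ : j ∈ Finset.univ.erase i) => hn j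
    linarith
  rw [hni i rfl] at h22
  linarith

end Pool.Agent.Lib.MP_361a6f_ag.FL.PT0
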