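import Pool.Agent.Lib.MP_361a6f_ag.FL.PT.MainPT
import Pool.Agent.Lib.MP_361a6f_ag.FL.PT0.Defs

/-!
# Theorem PT0: positivity in length four from the hypotheses on effective cycles
-/

open CategoryTheory AlgebraicGeometry MonoidalCategory CartesianMonoidalCategory

universe u v w w'

set_option autoImplicit false
set_option linter.unusedSectionVars false

namespace Pool.Agent.Lib.MP_361a6f_ag.FL.PT0

open Pool.Agent.Lib.MP_361a6f_ag.H3 Pool.Agent.Lib.MP_361a6f_ag.SQ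
  Pool.Agent.Lib.MP_361a6f_ag.PP Pool.Agent.Lib.MP_361a6f_ag.FL.E
  Pool.Agent.Lib.MP_361a6f_ag.FL.E.QS Pool.Agent.Lib.MP_361a6f_ag.FL.PT

noncomputable section

section host

variable {k : Type u} [Field k] {W : CohomologyData.{u, 0, w} k ℂ} {𝒱 : VarietyClass k}
  {H : Host W 𝒱 1}

/-- the hypothesis of `psd_of_words` in length four -/
theorem pair_of_b30 (hB : B30Statement.{u, w}) (r1 : RowA1.{w}) (r2 : RowA2.{w})
    (Lw : Law W (H.X 0)) {E : ∀ Z : Sch k, ℕ → Set (W.coh Z)}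
    (hE : Eff0 W (H.X 0) (H.n 0) (H.ξ 0) E)
    (hA : AbelianType W (H.X 0) (H.n 0)) (hξ : PositiveDivisor W (H.X 0) (H.n 0) (H.ξ 0))
    (hend : ∀ z ∈ W.alg (H.X 0 ⊗ H.X 0) (H.n 0), ∃ (n : ℕ) (h : H.X 0 ⟶ H.X 0), 0 < n ∧
      ∀ x ∈ W.gr (H.X 0) 1, W.pull h x = (n : ℂ) • cor W z x)
    (P : PT.PSys (subD H.D (0, 1)) (At1 H))
    (w : Fin 4 → Sub H.D (0, 1)) (t : Ten (Sub H.D (0, 1)) 4)
    (ht : t ∈ Submodule.span ℝ {u | At1 H 4 u})
    (h0 : ∀ w', w' ≠ w → w' ≠ (subD H.D (0, 1)).τ ∘ w → t w' = 0) :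
    ∃ r : ℝ, 0 ≤ r ∧ sg (subD H.D (0, 1)) w * (t w * t ((subD H.D (0, 1)).τ ∘ w)) = (r : ℂ) := by
  classical
  set D1 := subD H.D (0, 1) with hD1
  have hg : 0 < H.n 0 := pos_dim (w 0)
  have P1 : PT.PSys D1 (fun L u => At1 H L (gT (1 : Matrix (Sub H.D (0, 1)) _ ℂ) u)) := by
    have e : (fun (L : ℕ) (u : Ten (Sub H.D (0, 1)) L) =>
        At1 H L (gT (1 : Matrix (Sub H.D (0, 1)) _ ℂ) u)) = fun L u => At1 H L u := by
      funext L u
      rw [alg1.gT_one]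
    rw [e]
    exact P
  obtain ⟨F, hf, hτ, hs⟩ := exists_fr H (alg1.G_one D1) P1 hA hξ hg hend
  have hfe : ∀ j, F.f j = H.e 0 (j : H.I) := fun j => by rw [hf, fY_one]
  have hspan : ∀ v ∈ W.gr (H.X 0) 1, v ∈ Submodule.span ℂ (Set.range F.f) := fun v hv => by
    rw [hf]
    exact span_fY H (alg1.G_one D1) v hv
  have hne : D1.τ ∘ w ≠ w := fun h => (D1.odd_τ (w 0) (P.odd _)).1 (congrFun h 0)
  have hττ : D1.τ ∘ (D1.τ ∘ w) = w := funext fun i => D1.τ_τ (w i)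
  have hsgτ : sg D1 (D1.τ ∘ w) = sg D1 w := by
    unfold sg
    rw [Fin.prod_univ_four, Fin.prod_univ_four]
    simp only [Function.comp_apply, (D1.odd_τ _ (P.odd _)).2]
    ring
  -- the value of `ψ`
  have hψ : psiT D1 t t = 2 * (sg D1 w * (t w * t (D1.τ ∘ w))) := by
    unfold psiT
    rw [Finset.sum_eq_add w (D1.τ ∘ w) hne.symm]
    · rw [hττ, hsgτ]
      ring
    · intro v _ hv
      rw [h0 v hv.1 hv.2, zero_mul, mul_zero]
    · intro h
      exact absurd (Finset.mem_univ _) h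
    · intro h
      exact absurd (Finset.mem_univ _) h
  obtain ⟨ρ, hρ⟩ := Rsp.psi_real D1 P.sys (L := 4) (u := t) (v := t) ht ht
  have h2 : sg D1 w * (t w * t (D1.τ ∘ w)) = ((ρ / 2 : ℝ) : ℂ) := by
    rw [hρ] at hψ
    push_cast
    linear_combination (-1 / 2 : ℂ) * hψ
  refine ⟨ρ / 2, ?_, h2⟩
  -- the class
  have hcls := cls_real H Q4w 2 rfl (u := t) ht
  have hE4 : cls H Q4w t = t w • H.E Q4w (up w) + t (D1.τ ∘ w) • H.E Q4w (up (D1.τ ∘ w)) := by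
    rw [cls_eq]
    refine (Finset.sum_eq_add w (D1.τ ∘ w) hne.symm ?_ ?_ ?_)
    · intro v _ hv
      rw [h0 v hv.1 hv.2, zero_smul]
    · intro h
      exact absurd (Finset.mem_univ _) h
    · intro h
      exact absurd (Finset.mem_univ _) h
  rw [hE4] at hcls
  refine hB r1 r2 H.hW (H.mem 0) hg Lw (H.ξ_alg 0) hA.gen hE F hspan w (t w) (t (D1.τ ∘ w)) ?_
    (ρ / 2) ?_
  · have e1 := E_Q4w H (up w)
    have e2 := E_Q4w H (up (D1.τ ∘ w))
    rw [hτ]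
    simp only [hfe]
    have e3 : ∀ x y x' y' : W.coh (Y4 (H.X 0)), x = x' → y = y' →
        t w • x + t (D1.τ ∘ w) • y ∈
          Submodule.span ℝ (W.alg (Y4 (H.X 0)) 2 : Set (W.coh (Y4 (H.X 0)))) →
        t w • x' + t (D1.τ ∘ w) • y' ∈
          Submodule.span ℝ (W.alg (Y4 (H.X 0)) 2 : Set (W.coh (Y4 (H.X 0)))) := by
      rintro x y _ _ rfl rfl h
      exact h
    exact e3 _ _ _ _ e1 e2 hcls
  · rw [hs, ← h2]
    congr 1
    unfold sg
    rw [Fin.prod_univ_four, Fin.prod_univ_four]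
    ring

/-- **`ψ` is positive semidefinite in length four**, for a host with an adapted basis `Y`. -/
theorem pos_four0 (hB : B30Statement.{u, w}) (r1 : RowA1.{w}) (r2 : RowA2.{w})
    (Lw : Law W (H.X 0)) {E : ∀ Z : Sch k, ℕ → Set (W.coh Z)}
    (hE : Eff0 W (H.X 0) (H.n 0) (H.ξ 0) E)
    (hA : AbelianType W (H.X 0) (H.n 0)) (hξ : PositiveDivisor W (H.X 0) (H.n 0) (H.ξ 0))
    (hend : ∀ z ∈ W.alg (H.X 0 ⊗ H.X 0) (H.n 0), ∃ (n : ℕ) (h : H.X 0 ⟶ H.X 0), 0 < n ∧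
      ∀ x ∈ W.gr (H.X 0) 1, W.pull h x = (n : ℂ) • cor W z x)
    {Y : Matrix (Sub H.D (0, 1)) (Sub H.D (0, 1)) ℂ} (hG : IsG (subD H.D (0, 1)) Y)
    (P : PT.PSys (subD H.D (0, 1)) (fun L u => At1 H L (gT Y u)))
    {u : Ten (Sub H.D (0, 1)) 4} (hu : u ∈ Submodule.span ℝ {u | At1 H 4 u}) :
    ∃ r : ℝ, 0 ≤ r ∧ psiT (subD H.D (0, 1)) u u = (r : ℂ) := by
  have e : (fun (L : ℕ) (u : Ten (Sub H.D (0, 1)) L) => At1 H L (gT Y u)) =
      fun L u => At1 (hb H (isG_extM hG)) L u := by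
    funext L u
    exact propext (exists_hb H hG L u).symm
  have P' : PT.PSys (subD H.D (0, 1)) (fun L u => At1 (hb H (isG_extM hG)) L u) := e ▸ P
  refine psd alg1 hG P (L := 3) (fun w t ht h0 => ?_) hu
  refine pair_of_b30 (H := hb H (isG_extM hG)) hB r1 r2 Lw hE hA hξ hend P' w t ?_ h0
  have h1 : gT Y⁻¹ (gT Y t) ∈ Submodule.span ℝ {u | At1 (hb H (isG_extM hG)) 4 u} := by
    refine Submodule.span_induction (p := fun v _ => gT Y⁻¹ v ∈
      Submodule.span ℝ {u | At1 (hb H (isG_extM hG)) 4 u}) ?_ ?_ ?_ ?_ ht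
    · intro v hv
      refine Submodule.subset_span ?_
      show At1 (hb H (isG_extM hG)) 4 (gT Y⁻¹ v)
      rw [exists_hb H hG, ← alg1.gT_mul, (alg1.G_inv (subD H.D (0, 1)) Y hG).2.1, alg1.gT_one]
      exact hv
    · have h2 := alg1.gT_smul Y⁻¹ (0 : ℂ) (0 : Ten (Sub H.D (0, 1)) 4)
      rw [zero_smul, zero_smul] at h2
      rw [h2]
      exact zero_mem _
    · intro x y _ _ hx hy
      rw [alg1.gT_add]
      exact add_mem hx hy
    · intro c x _ hx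
      rw [← Complex.coe_smul, alg1.gT_smul, Complex.coe_smul]
      exact Submodule.smul_mem _ _ hx
  rwa [← alg1.gT_mul, (alg1.G_inv (subD H.D (0, 1)) Y hG).2.2, alg1.gT_one] at h1

end host

/-! ### Effective classes -/

/-- The output of the rows CONE and TRACE. -/
def Eff0Row : Prop :=
  ∀ {k : Type u} [Field k] {W : CohomologyData.{u, 0, w} k ℂ} {𝒱 : VarietyClass k}
    (_ : IsWeilCohomology W 𝒱) {X : Sch k} {g : ℕ} (_ : 𝒱.mem X g)
    (_ : ∀ x, W.Deg X 0 x → ∃ c, x = W.scal c 1) {θ : W.coh X} (_ : PositiveDivisor W X g θ)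
    (_ : EQ.Effective W X g θ), Nonempty (Law W X) ∧ ∃ E, Eff0 W X g θ E

/-- a group has a unital law -/
theorem unital_of_group {k : Type u} [Field k] {Y : Sch k} (h : EQ.Group Y) : EQ.Unital Y := by
  obtain ⟨m, e, h1, h2, -⟩ := h
  exact ⟨m, e, h1, h2⟩

section hyp

variable {k : Type u} [Field k] {k' : Type v} [Field k'] {W : CohomologyData.{u, 0, w} k ℂ}
  {𝒱 : VarietyClass k} {W' : CohomologyData.{v, 0, w'} k' ℂ} {𝒱' : VarietyClass k'}
  (hW : IsWeilCohomology W 𝒱) (hW' : IsWeilCohomology W' 𝒱') {D : EQ.Data W W'}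
  (h : EQ.Hyp 𝒱 𝒱' D) (hE : EQ.Effective W' D.X' D.g (D.s (.leaf 0) D.ξ))
  (endo : ∀ z, W'.IsAlg (D.X'.prod D.X') D.g z → ∃ (n : ℕ) (f : Sch.Mor D.X' D.X'), 0 < n ∧
    ∀ x, W'.Deg D.X' 1 x → W'.pb f x = W'.scal (n : ℂ) (EQ.act W' z x))
  (c : Hst.Core W D.X D.g D.ξ)

include hE endo in
/-- **Theorem PT for the reduction**: `ψ` is positive semidefinite on the real span of the
algebraic tensors of length four of the reduction. -/
theorem four_hyp0 (hB : B30Statement.{v, w'}) (hR : Eff0Row.{v, w'})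
    (u : Ten (Sub c.D (0, 1)) 4)
    (hu : u ∈ Submodule.span ℝ {u | At1 (hstY hW hW' h c) 4 u}) :
    ∃ r : ℝ, 0 ≤ r ∧ psiT (subD c.D (0, 1)) u u = (r : ℂ) := by
  obtain ⟨Y, hG, P⟩ := exists_frame_hyp hW hW' h c
  have h0 : ∀ x, W'.Deg D.X' 0 x → ∃ c, x = W'.scal c 1 := conn_hyp hW hW' h
  obtain ⟨⟨Lw⟩, E, hE0⟩ := hR hW' h.mem' h0 (posd_hyp h) hE
  exact pos_four0 (H := hstY hW hW' h c) hB rowA1 rowA2 Lw hE0
    (abelianType_of_unital hW' h.mem' h0 (unital_of_group hE.group) (posd_hyp h)) (posd_hyp h)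
    (fun z hz => endo z hz) hG P hu

include hW' hE endo in
/-- `ψ` is positive semidefinite on the algebraic tensors of length four of the variety. -/
theorem pos4 (hB : B30Statement.{v, w'}) (hR : Eff0Row.{v, w'})
    (u : Ten (Sub c.D (0, 1)) 4) (hu : At1 (hst hW h c) 4 u) :
    ∃ r : ℝ, 0 ≤ r ∧ psiT (subD c.D (0, 1)) u u = (r : ℂ) :=
  four_hyp0 hW hW' h hE endo c hB hR u (Submodule.subset_span (at_le_hyp hW hW' h c 4 u hu))

include hW hW' h hE endo in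
/-- **Theorem PT0.** `Q1` modulo numerical equivalence in codimension at most two. -/
theorem q1num (hB : B30Statement.{v, w'}) (hR : Eff0Row.{v, w'})
    (P : Prd 1) (η : W.coh (EQ.pw D.X P)) (hη : IsPol W (fun _ => D.ξ) P η) (j : ℕ) (hj : j ≤ 2) :
    EQ.Q1Num W (EQ.pw D.X P) (P.dim fun _ => D.g) η j := by
  obtain ⟨c⟩ := Hst.exists_core_hyp hW h
  refine EndFr.q1num (hst hW h c) (fun _ => Hst.abelianType hW h) (fun _ => h.div) hη j
    fun h0 => ?_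
  have hj2 : j = 1 ∨ j = 2 := by omega
  rcases hj2 with rfl | rfl
  · exact EndFr.posS_of (hst hW h c) fun u hu => pos2 hW hW' h c u hu
  · exact EndFr.posS_of (hst hW h c) fun u hu => pos4 hW hW' h hE endo c hB hR u hu

include hW hW' h hE endo in
/-- **Theorem PT0+.** Everything that is generated by the classes of codimension at most two. -/
theorem ppl (hB : B30Statement.{v, w'}) (hR : Eff0Row.{v, w'})
    (P : Prd 1) (η : W.coh (EQ.pw D.X P)) (hη : IsPol W (fun _ => D.ξ) P η) (j : ℕ)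
    (z : W.coh (EQ.pw D.X P)) (hz : EQ.Made2 W D.X D.g P j z)
    (hj : 2 * j ≤ P.dim fun _ => D.g)
    (hp : EQ.NumTrivial W (EQ.pw D.X P) (W.cup (η ^ ((P.dim fun _ => D.g) - 2 * j + 1)) z))
    (hn : ¬ EQ.NumTrivial W (EQ.pw D.X P) z) :
    RatPos ((-1) ^ j * W.Tr (W.cup (η ^ ((P.dim fun _ => D.g) - 2 * j)) (W.cup z z))) :=
  PTG.gen_of_q1 hW h.mem h.conn h.unital h.div
    (fun P j hj => q1num hW hW' h hE endo hB hR P _ (HodgeZ.isPol _ P) j hj) hη hz hj hp hn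

end hyp

end

end Pool.Agent.Lib.MP_361a6f_ag.FL.PT0
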