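import Pool.Agent.Lib.MP_361a6f_ag.FL.PT0.Push
import Pool.Agent.Lib.MP_361a6f_ag.FL.PT0.Stat
import Pool.Agent.Lib.MP_361a6f_ag.FL.GeoDefs

/-!
# Theorem PT0: the cone
-/

open CategoryTheory AlgebraicGeometry MonoidalCategory CartesianMonoidalCategory

universe u w

set_option autoImplicit false

namespace Pool.Agent.Lib.MP_361a6f_ag.FL.PT0

open Pool.Agent.Lib.MP_361a6f_ag.H3 Pool.Agent.Lib.MP_361a6f_ag.SQ

variable {k : Type u} [Field k] {W : CohomologyData.{u, 0, w} k ℂ} {𝒱 : VarietyClass k}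

/-- the classes `pr_* φ^* β` for effective classes `β` on powers of `X` -/
def gens (W : CohomologyData.{u, 0, w} k ℂ) (X : Sch k) (g : ℕ) (Z : Sch k) (j : ℕ) :
    Set (W.coh Z) :=
  {x | ∃ (P Q : Prd 1) (φ : Z ⊗ EQ.pw X P ⟶ EQ.pw X Q) (β : W.coh (EQ.pw X Q)),
    β ∈ EQ.eff W (EQ.pw X Q) (j + P.dim fun _ => g) ∧
      x = W.push (fst Z (EQ.pw X P)) (W.pull φ β)}

/-- the sums of these classes -/
def cone (W : CohomologyData.{u, 0, w} k ℂ) (X : Sch k) (g : ℕ) (Z : Sch k) (j : ℕ) :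
    AddSubmonoid (W.coh Z) := AddSubmonoid.closure (gens W X g Z j)

theorem eff_alg {Y : Sch k} {j : ℕ} {x : W.coh Y} (hx : x ∈ EQ.eff W Y j) : x ∈ W.alg Y j := by
  induction hx using AddSubmonoid.closure_induction with
  | mem x hx =>
    obtain ⟨q, Z, hq, rfl⟩ := hx
    exact AddSubgroup.subset_closure ⟨q, Z, rfl⟩
  | zero => exact zero_mem _
  | add x y _ _ hx hy => exact add_mem hx hy

theorem alg_sub {Y : Sch k} {j : ℕ} {x : W.coh Y} (hx : x ∈ W.alg Y j) :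
    ∃ a ∈ EQ.eff W Y j, ∃ b ∈ EQ.eff W Y j, x = a - b := by
  induction hx using AddSubgroup.closure_induction with
  | mem x hx =>
    obtain ⟨q, Z, rfl⟩ := hx
    rcases le_total 0 q with hq | hq
    · exact ⟨(q : ℂ) • W.cl Y j Z, AddSubmonoid.subset_closure ⟨q, Z, hq, rfl⟩, 0, zero_mem _,
        (sub_zero _).symm⟩
    · refine ⟨0, zero_mem _, ((-q : ℚ) : ℂ) • W.cl Y j Z,
        AddSubmonoid.subset_closure ⟨-q, Z, by linarith, rfl⟩, ?_⟩
      push_cast
      rw [neg_smul, zero_sub, neg_neg]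
  | zero => exact ⟨0, zero_mem _, 0, zero_mem _, (sub_zero _).symm⟩
  | add x y _ _ hx hy =>
    obtain ⟨a, ha, b, hb, rfl⟩ := hx
    obtain ⟨a', ha', b', hb', rfl⟩ := hy
    exact ⟨a + a', add_mem ha ha', b + b', add_mem hb hb', by abel⟩
  | neg x _ hx =>
    obtain ⟨a, ha, b, hb, rfl⟩ := hx
    exact ⟨b, hb, a, ha, by abel⟩

theorem pull_lift_ext {A B C : Sch k} (a : A ⟶ B) (b : A ⟶ C) (β : W.coh B) (β' : W.coh C) :
    W.pull (lift a b) (W.pull (fst B C) β * W.pull (snd B C) β') = W.pull a β * W.pull b β' := by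
  rw [map_mul, ← W.pull_comp, ← W.pull_comp, lift_fst, lift_snd]

variable (hW : IsWeilCohomology W 𝒱) {X : Sch k} {g : ℕ} (hX : 𝒱.mem X g)

include hX in
theorem mem_pw (P : Prd 1) : 𝒱.mem (EQ.pw X P) (P.dim fun _ => g) := FL.memP (fun _ => hX) P

include hW hX

theorem gens_gr {Z : Sch k} {d : ℕ} (hZ : 𝒱.mem Z d) {j : ℕ} {x : W.coh Z}
    (hx : x ∈ gens W X g Z j) : x ∈ W.gr Z (2 * j) := by
  obtain ⟨P, Q, φ, β, hβ, rfl⟩ := hx
  have hP := mem_pw hX P
  have hQ := mem_pw hX Q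
  have hZP := 𝒱.prod hZ hP
  exact MotZ.push_gr hW hZP hZ _ (i := 2 * (j + P.dim fun _ => g)) (by ring)
    (hW.pull_gr hZP hQ φ (hW.alg_gr hQ (eff_alg hβ)))

theorem cone_gr {Z : Sch k} {d : ℕ} (hZ : 𝒱.mem Z d) {j : ℕ} {x : W.coh Z}
    (hx : x ∈ cone W X g Z j) : x ∈ W.gr Z (2 * j) := by
  induction hx using AddSubmonoid.closure_induction with
  | mem x hx => exact gens_gr hW hX hZ hx
  | zero => exact zero_mem _
  | add x y _ _ hx hy => exact add_mem hx hy

/-- pull-backs -/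
theorem cone_pull {Z Z' : Sch k} {d d' : ℕ} (hZ : 𝒱.mem Z d) (hZ' : 𝒱.mem Z' d') (h : Z' ⟶ Z)
    {j : ℕ} {x : W.coh Z} (hx : x ∈ cone W X g Z j) : W.pull h x ∈ cone W X g Z' j := by
  induction hx using AddSubmonoid.closure_induction with
  | mem x hx =>
    obtain ⟨P, Q, φ, β, hβ, rfl⟩ := hx
    refine AddSubmonoid.subset_closure ⟨P, Q, h ▷ EQ.pw X P ≫ φ, β, hβ, ?_⟩
    rw [pull_push hW hZ hZ' (mem_pw hX P), W.pull_comp]
  | zero => rw [map_zero]; exact zero_mem _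
  | add x y _ _ hx hy => rw [map_add]; exact add_mem hx hy

/-- push-forwards along projections -/
theorem cone_push {A : Sch k} {d : ℕ} (hA : 𝒱.mem A d) (P' : Prd 1) {j : ℕ}
    {x : W.coh (A ⊗ EQ.pw X P')} (hx : x ∈ cone W X g (A ⊗ EQ.pw X P') (j + P'.dim fun _ => g)) :
    W.push (fst A (EQ.pw X P')) x ∈ cone W X g A j := by
  have hP' := mem_pw hX P'
  have hAP := 𝒱.prod hA hP'
  induction hx using AddSubmonoid.closure_induction with
  | mem x hx =>
    obtain ⟨P, Q, φ, β, hβ, rfl⟩ := hx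
    have e : (j + P'.dim fun _ => g) + (P.dim fun _ => g) = j + (Prd.prod P' P).dim fun _ => g := by
      show _ = j + ((P'.dim fun _ => g) + (P.dim fun _ => g))
      ring
    rw [e] at hβ
    refine AddSubmonoid.subset_closure ⟨.prod P' P, Q,
      (α_ A (EQ.pw X P') (EQ.pw X P)).inv ≫ φ, β, hβ, ?_⟩
    rw [push_push hW hA hP' (mem_pw hX P), ← W.pull_comp]
    rfl
  | zero => rw [map_zero]; exact zero_mem _
  | add x y _ _ hx hy => rw [map_add]; exact add_mem hx hy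

variable {θ : W.coh X} (hM : EQ.Effective W X g θ)

include hM

/-- products -/
theorem cone_mul {Z : Sch k} {d : ℕ} (hZ : 𝒱.mem Z d) {i j : ℕ} {x y : W.coh Z}
    (hx : x ∈ cone W X g Z i) (hy : y ∈ cone W X g Z j) : x * y ∈ cone W X g Z (i + j) := by
  induction hx using AddSubmonoid.closure_induction with
  | mem x hx =>
    induction hy using AddSubmonoid.closure_induction with
    | mem y hy =>
      obtain ⟨P, Q, φ, β, hβ, rfl⟩ := hx
      obtain ⟨P', Q', φ', β', hβ', rfl⟩ := hy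
      have hP := mem_pw hX P
      have hP' := mem_pw hX P'
      have hQ := mem_pw hX Q
      have hZP := 𝒱.prod hZ hP
      have h1 := hM.ext Q Q' _ _ β β' hβ hβ'
      have e : (i + P.dim fun _ => g) + (j + P'.dim fun _ => g) =
          i + j + (Prd.prod P P').dim fun _ => g := by
        show _ = i + j + ((P.dim fun _ => g) + (P'.dim fun _ => g))
        ring
      rw [e] at h1
      refine AddSubmonoid.subset_closure ⟨.prod P P', .prod Q Q',
        lift (Z ◁ fst (EQ.pw X P) (EQ.pw X P') ≫ φ) (Z ◁ snd (EQ.pw X P) (EQ.pw X P') ≫ φ'),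
        W.ext β β', h1, ?_⟩
      rw [push_mul_push hW hZ hP hP' (hW.pull_gr hZP hQ φ (hW.alg_gr hQ (eff_alg hβ)))]
      rw [← W.pull_comp, ← W.pull_comp, ← pull_lift_ext]
      rfl
    | zero => rw [mul_zero]; exact zero_mem _
    | add y y' _ _ hy hy' => rw [mul_add]; exact add_mem hy hy'
  | zero => rw [zero_mul]; exact zero_mem _
  | add x x' _ _ hx hx' => rw [add_mul]; exact add_mem hx hx'

/-- the effective classes on the powers of `X` are in the cone -/
theorem eff_cone {ω : W.coh X} (hω : ω ∈ EQ.eff W X g) (h1 : W.tr X ω = 1) (Q : Prd 1) {j : ℕ}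
    {β : W.coh (EQ.pw X Q)} (hβ : β ∈ EQ.eff W (EQ.pw X Q) j) : β ∈ cone W X g (EQ.pw X Q) j := by
  have h2 := hM.ext Q (.leaf 0) j g β ω hβ hω
  refine AddSubmonoid.subset_closure ⟨.leaf 0, .prod Q (.leaf 0), 𝟙 _, W.ext β ω, h2, ?_⟩
  have h3 := hW.push_fst (mem_pw hX Q) hX β ω
  rw [h1, one_smul] at h3
  exact h3.symm.trans (congrArg _ (W.pull_id _).symm)

end Pool.Agent.Lib.MP_361a6f_ag.FL.PT0
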