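import Pool.Agent.Lib.MP_361a6f_ag.FL.PT0.Grp
import Pool.Agent.Lib.MP_361a6f_ag.FL.PT0.Cone
import Pool.Agent.Lib.MP_361a6f_ag.FL.B.AbV

/-!
# Theorem PT0: pull-backs of effective classes of top degree have nonnegative trace
-/

open CategoryTheory AlgebraicGeometry MonoidalCategory CartesianMonoidalCategory

universe u w

set_option autoImplicit false
set_option linter.unusedSectionVars false

namespace Pool.Agent.Lib.MP_361a6f_ag.FL.PT0

open Pool.Agent.Lib.MP_361a6f_ag.H3 Pool.Agent.Lib.MP_361a6f_ag.SQ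

variable {k : Type u} [Field k] {W : CohomologyData.{u, 0, w} k ℂ} {𝒱 : VarietyClass k}
  (hW : IsWeilCohomology W 𝒱)

include hW

/-- `H^0` of a product -/
theorem conn_prod {X Y : Sch k} {a b : ℕ} (hX : 𝒱.mem X a) (hY : 𝒱.mem Y b)
    (h0 : ∀ x ∈ W.gr X 0, ∃ c : ℂ, x = c • (1 : W.coh X))
    (h0' : ∀ x ∈ W.gr Y 0, ∃ c : ℂ, x = c • (1 : W.coh Y)) :
    ∀ z ∈ W.gr (X ⊗ Y) 0, ∃ c : ℂ, z = c • (1 : W.coh (X ⊗ Y)) := by
  have hXY := 𝒱.prod hX hY
  have hi := hW.internal hXY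
  have key : ∀ z : W.coh (X ⊗ Y), ∃ c : ℂ, AV48.pj hi 0 z = c • (1 : W.coh (X ⊗ Y)) := by
    intro z
    refine prod_induction hW hX hY (P := fun z => ∃ c : ℂ,
      AV48.pj hi 0 z = c • (1 : W.coh (X ⊗ Y))) z ?_ ?_ ?_ ?_
    · intro y x
      refine hW.hom_induction hX (P := fun y => ∃ c : ℂ,
        AV48.pj hi 0 (W.pull (fst X Y) y * W.pull (snd X Y) x) = c • (1 : W.coh (X ⊗ Y)))
        y ?_ ?_ ?_
      · intro i y hy
        refine hW.hom_induction hY (P := fun x => ∃ c : ℂ,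
          AV48.pj hi 0 (W.pull (fst X Y) y * W.pull (snd X Y) x) = c • (1 : W.coh (X ⊗ Y)))
          x ?_ ?_ ?_
        · intro j x hx
          have hyx := hW.mul_gr hXY (hW.pull_gr hXY hX (fst X Y) hy)
            (hW.pull_gr hXY hY (snd X Y) hx)
          by_cases hij : i + j = 0
          · rw [hij] at hyx
            rw [AV48.pj_same hi hyx]
            obtain rfl : i = 0 := by omega
            obtain rfl : j = 0 := by omega
            obtain ⟨c, rfl⟩ := h0 y hy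
            obtain ⟨c', rfl⟩ := h0' x hx
            exact ⟨c * c', by simp [smul_smul, mul_comm]⟩
          · rw [AV48.pj_ne hi hij hyx]
            exact ⟨0, by simp⟩
        · exact ⟨0, by simp⟩
        · rintro x x' ⟨c, e⟩ ⟨c', e'⟩
          exact ⟨c + c', by rw [map_add, mul_add, map_add, e, e', add_smul]⟩
      · exact ⟨0, by simp⟩
      · rintro x x' ⟨c, e⟩ ⟨c', e'⟩
        exact ⟨c + c', by rw [map_add, add_mul, map_add, e, e', add_smul]⟩
    · exact ⟨0, by simp⟩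
    · rintro x x' ⟨c, e⟩ ⟨c', e'⟩
      exact ⟨c + c', by rw [map_add, e, e', add_smul]⟩
    · rintro r x ⟨c, e⟩
      exact ⟨r * c, by rw [map_smul, e, smul_smul]⟩
  intro z hz
  obtain ⟨c, e⟩ := key z
  exact ⟨c, by rw [← e, AV48.pj_same hi hz]⟩

/-- `H^0` of a power -/
theorem conn_pw {X : Sch k} {a : ℕ} (hX : 𝒱.mem X a)
    (h0 : ∀ x ∈ W.gr X 0, ∃ c : ℂ, x = c • (1 : W.coh X)) :
    ∀ P : Prd 1, ∀ z ∈ W.gr (EQ.pw X P) 0, ∃ c : ℂ, z = c • (1 : W.coh (EQ.pw X P))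
  | .leaf _ => h0
  | .prod P Q => conn_prod hW (FL.memP (n := fun _ => a) (fun _ => hX) P)
      (FL.memP (n := fun _ => a) (fun _ => hX) Q) (conn_pw hX h0 P) (conn_pw hX h0 Q)


/-- the trace of the product with the class of a point of the second factor -/
theorem tr_point {D B : Sch k} {d b : ℕ} (hD : 𝒱.mem D d) (hB : 𝒱.mem B b)
    (h0 : ∀ x ∈ W.gr B 0, ∃ c : ℂ, x = c • (1 : W.coh B)) {ω : W.coh B}
    (hω : ω ∈ W.gr B (2 * b)) (h1 : W.tr B ω = 1) (e : 𝟙_ (Sch k) ⟶ B) (z : W.coh (D ⊗ B)) :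
    W.tr (D ⊗ B) (z * W.pull (snd D B) ω) = W.tr D (W.pull (lift (𝟙 D) (toUnit D ≫ e)) z) := by
  refine prod_induction hW hD hB (P := fun z => W.tr (D ⊗ B) (z * W.pull (snd D B) ω) =
    W.tr D (W.pull (lift (𝟙 D) (toUnit D ≫ e)) z)) z ?_ ?_ ?_ ?_
  · intro y x
    rw [pull_lift_ext, W.pull_id, mul_assoc, ← map_mul, hW.kunneth_tr hD hB]
    refine hW.hom_induction hB (P := fun x => W.tr D y * W.tr B (x * ω) =
      W.tr D (y * W.pull (toUnit D ≫ e) x)) x ?_ ?_ ?_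
    · intro i x hx
      by_cases hi : i = 0
      · subst hi
        obtain ⟨c, rfl⟩ := h0 x hx
        simp only [smul_mul_assoc, one_mul, map_smul, h1, map_one, mul_smul_comm, mul_one,
          smul_eq_mul]
        ring
      · have h2 : W.pull e x = 0 := hW.top_gr 𝒱.point (hW.pull_gr 𝒱.point hB e hx) (by omega)
        have h3 : x * ω = 0 := hW.top_gr hB (hW.mul_gr hB hx hω) (by omega)
        rw [h3, map_zero, mul_zero, W.pull_comp, h2, map_zero, mul_zero, map_zero]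
    · simp
    · intro a a' ha ha'
      rw [add_mul, map_add, mul_add, ha, ha', map_add, mul_add, map_add]
  · simp
  · intro a a' ha ha'
    rw [add_mul, map_add, ha, ha', map_add, map_add]
  · intro c a ha
    rw [smul_mul_assoc, map_smul, ha, map_smul, map_smul]

variable {X : Sch k} {g : ℕ} (hX : 𝒱.mem X g)
  (h0 : ∀ x ∈ W.gr X 0, ∃ c : ℂ, x = c • (1 : W.coh X)) {θ : W.coh X}
  (hM : EQ.Effective W X g θ)

include hX

omit hW in
theorem point_pw (hW : IsWeilCohomology W 𝒱) {ω : W.coh X} (hω : ω ∈ W.gr X (2 * g))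
    (h1 : W.tr X ω = 1) :
    ∀ P : Prd 1, ∃ ω' ∈ W.gr (EQ.pw X P) (2 * P.dim fun _ => g), W.tr (EQ.pw X P) ω' = 1
  | .leaf _ => ⟨ω, hω, h1⟩
  | .prod P Q => by
    obtain ⟨a, ha, ha1⟩ := point_pw hW hω h1 P
    obtain ⟨b, hb, hb1⟩ := point_pw hW hω h1 Q
    have hP := mem_pw hX P
    have hQ := mem_pw hX Q
    have hPQ := 𝒱.prod hP hQ
    refine ⟨W.pull (fst (EQ.pw X P) (EQ.pw X Q)) a * W.pull (snd (EQ.pw X P) (EQ.pw X Q)) b, ?_, ?_⟩
    · have h := hW.mul_gr hPQ (hW.pull_gr hPQ hP (fst (EQ.pw X P) (EQ.pw X Q)) ha)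
        (hW.pull_gr hPQ hQ (snd (EQ.pw X P) (EQ.pw X Q)) hb)
      have e : (2 * P.dim fun _ => g) + (2 * Q.dim fun _ => g) =
          2 * (Prd.prod P Q).dim fun _ => g := by
        show _ = 2 * ((P.dim fun _ => g) + (Q.dim fun _ => g))
        ring
      rw [e] at h
      exact h
    · have h := hW.kunneth_tr hP hQ a b
      rw [ha1, hb1, one_mul] at h
      exact h

include h0 hM

/-- **Positivity.** -/
theorem tr_pull_eff {ω : W.coh X} (hω : ω ∈ W.gr X (2 * g)) (h1 : W.tr X ω = 1) (P Q : Prd 1)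
    (φ : EQ.pw X P ⟶ EQ.pw X Q) {β : W.coh (EQ.pw X Q)}
    (hβ : β ∈ EQ.eff W (EQ.pw X Q) (P.dim fun _ => g)) :
    ∃ q : ℚ, 0 ≤ q ∧ W.tr (EQ.pw X P) (W.pull φ β) = (q : ℂ) := by
  obtain ⟨L0⟩ := exists_dv hM.group
  have hP := mem_pw hX P
  have hQ := mem_pw hX Q
  have hPQ := 𝒱.prod hP hQ
  obtain ⟨ω', hω', h1'⟩ := point_pw hX hW hω h1 Q
  let L := L0.pw Q
  let A := L.shear φ
  have hA : 𝒱.mem (EQ.pw X P ⊗ EQ.pw X Q) ((P.dim fun _ => g) + Q.dim fun _ => g) := hPQ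
  -- the effective class `1 × β`
  have h2 := hM.ext P (Q) 0 _ 1 β (hM.one P) hβ
  have e2 : W.ext (1 : W.coh (EQ.pw X P)) β = W.pull (snd (EQ.pw X P) (EQ.pw X Q)) β := by
    show W.pull (fst (EQ.pw X P) (EQ.pw X Q)) 1 * W.pull (snd (EQ.pw X P) (EQ.pw X Q)) β = _
    rw [map_one, one_mul]
  rw [e2, zero_add] at h2
  obtain ⟨q, hq, h3⟩ := hM.degree (.prod P Q) Q (A.inv ≫ snd (EQ.pw X P) (EQ.pw X Q)) _ _ h2 rfl
  refine ⟨q, hq, ?_⟩
  have h3' : W.push (A.inv ≫ snd (EQ.pw X P) (EQ.pw X Q)) (W.pull (snd (EQ.pw X P) (EQ.pw X Q)) β)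
      = (q : ℂ) • (1 : W.coh (EQ.pw X Q)) := h3
  -- the pull-back along `(a, b) ↦ φ(a) b`
  have h4 := tr_point hW hP hQ (conn_pw hW hX h0 Q) hω' h1' L.e
    (W.pull (A.hom ≫ snd (EQ.pw X P) (EQ.pw X Q)) β)
  have e4 : lift (𝟙 (EQ.pw X P)) (toUnit (EQ.pw X P) ≫ L.e) ≫
      A.hom ≫ snd (EQ.pw X P) (EQ.pw X Q) = φ := by
    have h := L.mul_unit φ
    simpa [A, Dv.shear, comp_lift_assoc, comp_lift] using h
  rw [← W.pull_comp, e4] at h4
  rw [← h4]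
  have e5 : W.pull (A.hom ≫ snd (EQ.pw X P) (EQ.pw X Q)) β *
      W.pull (snd (EQ.pw X P) (EQ.pw X Q)) ω' = W.pull A.hom
        (W.pull (snd (EQ.pw X P) (EQ.pw X Q)) β *
          W.pull (A.inv ≫ snd (EQ.pw X P) (EQ.pw X Q)) ω') := by
    rw [map_mul, ← W.pull_comp, ← W.pull_comp, Iso.hom_inv_id_assoc]
  rw [e5, hW.tr_iso hPQ hPQ A, ← hW.push_adj hPQ hQ, h3', smul_mul_assoc, one_mul, map_smul, h1',
    smul_eq_mul, mul_one]

end Pool.Agent.Lib.MP_361a6f_ag.FL.PT0
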