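import Pool.Agent.Lib.MP_361a6f_ag.FL.K0.Nd2
import Pool.Agent.Lib.MP_361a6f_ag.FL.K0.Geo
import Pool.Agent.Lib.MP_361a6f_ag.FL.PT0.Norm
import Pool.Agent.Lib.MP_361a6f_ag.FL.PT.FrD
import Pool.Agent.Lib.MP_361a6f_ag.FL.PT.FrY

/-!
# The Hodge index theorem for `X' × X'` from Tate's theorem and the axioms on effective cycles
-/

open CategoryTheory AlgebraicGeometry MonoidalCategory CartesianMonoidalCategory

universe u v w w' u'

set_option autoImplicit false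
set_option linter.unusedSectionVars false

namespace Pool.Agent.Lib.MP_361a6f_ag.FL.PT0

open Pool.Agent.Lib.MP_361a6f_ag.H3 Pool.Agent.Lib.MP_361a6f_ag.SQ
  Pool.Agent.Lib.MP_361a6f_ag.PP Pool.Agent.Lib.MP_361a6f_ag.FL.E
  Pool.Agent.Lib.MP_361a6f_ag.FL.PT

section semi

variable {k : Type u} [Field k] {W : CohomologyData.{u, 0, w} k ℂ} {𝒱 : VarietyClass k}
  (H : Host W 𝒱 1)

theorem vec1_single (j : Sub H.D (0, 1)) : vec1 H (Pi.single j 1) = H.e 0 (j : H.I) := by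
  rw [vec1_apply, Finset.sum_eq_single j]
  · rw [Pi.single_eq_same, one_smul]
  · intro i _ hi
    rw [Pi.single_eq_of_ne hi, zero_smul]
  · intro h
    exact absurd (Finset.mem_univ _) h

/-- `ψ` is positive semidefinite on the tensors of length `2` of the correspondences. -/
theorem semi (h0 : ∀ x ∈ W.gr (H.X 0) 0, ∃ c : ℂ, x = c • (1 : W.coh (H.X 0)))
    (hθ : PositiveDivisor W (H.X 0) (H.n 0) (H.ξ 0))
    (hM : EQ.Effective W (H.X 0) (H.n 0) (H.ξ 0)) (hA : AbelianType W (H.X 0) (H.n 0))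
    (hE : ∀ z ∈ W.alg (H.X 0 ⊗ H.X 0) (H.n 0), ∃ (N : ℕ) (f : H.X 0 ⟶ H.X 0), 0 < N ∧
      ∀ x ∈ W.gr (H.X 0) 1, W.pull f x = (N : ℂ) • cor W z x)
    {u : Ten (Sub H.D (0, 1)) 2} (hu : At1 H 2 u) :
    ∃ r : ℝ, 0 ≤ r ∧ psiT (subD H.D (0, 1)) u u = (r : ℂ) := by
  have hX := H.mem 0
  by_cases hI : Nonempty (Sub H.D (0, 1))
  swap
  · refine ⟨0, le_rfl, ?_⟩
    rw [psiT, Finset.sum_eq_zero]
    · exact Complex.ofReal_zero.symm
    · intro w _
      exact absurd ⟨w 0⟩ hI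
  obtain ⟨i0⟩ := hI
  have hg : 1 ≤ H.n 0 := one_le H i0
  obtain ⟨z, hz, hzc⟩ := exists_cor H hu
  obtain ⟨N, f, hN, hf⟩ := hE z hz
  set A := opM (subD H.D (0, 1)) u with hAdef
  have hfe : ∀ j : Sub H.D (0, 1), W.pull f (H.e 0 (j : H.I)) = (N : ℂ) • vec1 H (fun i => A i j) := by
    intro j
    have h1 : H.e 0 (j : H.I) ∈ W.gr (H.X 0) 1 := Theta.he H j
    rw [hf _ h1, ← vec1_single H j, hzc]
    congr 2
    rw [Matrix.mulVec_single_one]
    rfl
  obtain ⟨c, κ, hc, hκ, hξ, -⟩ := Theta.host H hA hθ hg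
  obtain ⟨r, hr, htr⟩ := bip_tr H.hW hX h0 hθ hM
    (x := W.pull f (H.ξ 0) * H.ξ 0 ^ (H.n 0 - 1)) (by
      have h1 : W.pull f (H.ξ 0) ∈ Bip (cone W (H.X 0) (H.n 0) (H.X 0) 1 : Set (W.coh (H.X 0))) :=
        Bip.map ((W.pull f).toLinearMap.restrictScalars ℝ)
          (fun y hy => Bip.of_mem (cone_pull H.hW hX hX hX f hy)) (theta_bip H.hW hX h0 hθ hM)
      have h2 := Bip.mul (fun x hx y hy => Bip.of_mem (cone_mul H.hW hX hM hX hx hy)) h1
        (theta_pow_bip H.hW hX h0 hθ hM (H.n 0 - 1))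
      rw [show 1 + (H.n 0 - 1) = H.n 0 by omega] at h2
      exact h2)
  -- the trace
  have hcomm : ∀ x : W.coh (H.X 0), x * H.ξ 0 ^ (H.n 0 - 1) = H.ξ 0 ^ (H.n 0 - 1) * x :=
    fun x => (tot_comm H.hW hX (EndNum.pow_tot H.hW hX hθ.1 _) x).symm
  have hform : ∀ a b : Sub H.D (0, 1) → ℂ,
      W.tr (H.X 0) (H.ξ 0 ^ (H.n 0 - 1) * (vec1 H a * vec1 H b))
        = -((H.n 0 - 1).factorial : ℂ) * dotProduct a ((Psi (subD H.D (0, 1))).mulVec b) := by
    intro a b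
    have h1 := FL.psi_one H.hW hX hθ (H.lam 0) hg (vec1 H a) (vec1_gr H b)
    rw [psi_vec1] at h1
    have h2 : ((H.n 0 - 1).factorial : ℂ) ≠ 0 := by
      exact_mod_cast (H.n 0 - 1).factorial_ne_zero
    rw [h1]
    field_simp
  have hval : W.tr (H.X 0) (W.pull f (H.ξ 0) * H.ξ 0 ^ (H.n 0 - 1))
      = ((c * N ^ 2 * (H.n 0 - 1).factorial : ℝ) : ℂ) * psiT (subD H.D (0, 1)) u u := by
    have h1 : W.pull f (H.ξ 0) = (c : ℂ) • ∑ j : Sub H.D (0, 1), (-(subD H.D (0, 1)).s j) •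
        (((N : ℂ) • vec1 H (fun i => A i j)) *
          ((N : ℂ) • vec1 H (fun i => A i ((subD H.D (0, 1)).τ j)))) := by
      conv_lhs => rw [hξ]
      rw [map_smul, map_sum]
      congr 1
      refine Finset.sum_congr rfl fun j _ => ?_
      rw [map_smul, map_mul, hfe, hfe]
    rw [hcomm, h1, mul_smul_comm, map_smul, Finset.mul_sum, map_sum, smul_eq_mul]
    have h2 : ∀ j : Sub H.D (0, 1), W.tr (H.X 0) (H.ξ 0 ^ (H.n 0 - 1) *
        ((-(subD H.D (0, 1)).s j) • (((N : ℂ) • vec1 H (fun i => A i j)) *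
          ((N : ℂ) • vec1 H (fun i => A i ((subD H.D (0, 1)).τ j))))))
        = (N : ℂ) ^ 2 * ((H.n 0 - 1).factorial : ℂ) * ∑ i, (subD H.D (0, 1)).s i *
          (subD H.D (0, 1)).s j * (A i j * A ((subD H.D (0, 1)).τ i) ((subD H.D (0, 1)).τ j)) := by
      intro j
      rw [mul_smul_comm, map_smul, smul_mul_assoc, mul_smul_comm, mul_smul_comm, mul_smul_comm,
        map_smul, map_smul, hform, smul_eq_mul, smul_eq_mul, smul_eq_mul]
      have h3 : dotProduct (fun i => A i j) ((Psi (subD H.D (0, 1))).mulVec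
          (fun i => A i ((subD H.D (0, 1)).τ j)))
          = ∑ i, (subD H.D (0, 1)).s i * (A i j * A ((subD H.D (0, 1)).τ i)
            ((subD H.D (0, 1)).τ j)) := by
        rw [dotProduct]
        refine Finset.sum_congr rfl fun i _ => ?_
        rw [Matrix.mulVec, dotProduct, Finset.sum_eq_single ((subD H.D (0, 1)).τ i)]
        · rw [Psi_apply, if_pos rfl]
          ring
        · intro b _ hb
          rw [Psi_apply, if_neg hb, zero_mul]
        · intro h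
          exact absurd (Finset.mem_univ _) h
      rw [h3, Finset.mul_sum, Finset.mul_sum, Finset.mul_sum, Finset.mul_sum, Finset.mul_sum]
      refine Finset.sum_congr rfl fun i _ => ?_
      ring
    rw [Finset.sum_congr rfl fun j _ => h2 j, ← Finset.mul_sum, Finset.sum_comm]
    have h4 : psiT (subD H.D (0, 1)) u u = psiT (subD H.D (0, 1)) (mten (subD H.D (0, 1)) A)
        (mten (subD H.D (0, 1)) A) := by rw [hAdef, QS.mten_opM]
    rw [h4, K0.psi_mten]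
    push_cast
    ring
  have hC : 0 < c * (N : ℝ) ^ 2 * ((H.n 0 - 1).factorial : ℝ) := by
    have h1 : (0 : ℝ) < N := by exact_mod_cast hN
    have h2 : (0 : ℝ) < ((H.n 0 - 1).factorial : ℝ) := by
      exact_mod_cast (H.n 0 - 1).factorial_pos
    positivity
  refine ⟨r / (c * N ^ 2 * (H.n 0 - 1).factorial), div_nonneg hr hC.le, ?_⟩
  rw [hval] at htr
  have hC' : ((c * (N : ℝ) ^ 2 * ((H.n 0 - 1).factorial : ℝ) : ℝ) : ℂ) ≠ 0 := by
    exact_mod_cast hC.ne'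
  rw [Complex.ofReal_div, eq_div_iff hC', mul_comm]
  exact htr

end semi

end Pool.Agent.Lib.MP_361a6f_ag.FL.PT0
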