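import Pool.Agent.Lib.MP_361a6f_ag.FL.K0.StatK0
import Pool.Agent.Lib.MP_361a6f_ag.FL.PT0.Stat

/-!
# The hypotheses of the final texts

`EQ.Base` are the hypotheses on the specialisation and on Frobenius. `EQ.Inputs` is the alternative:
the spectrum of Frobenius on `H^1(X')` is simple (then nothing is assumed), or Tate's theorem, the
Hodge index theorem and the description of the correspondences on `H^1(X')` by endomorphisms are
assumed.
-/

open CategoryTheory AlgebraicGeometry MonoidalCategory CartesianMonoidalCategory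

universe u v w w'

namespace Pool.Agent.Lib.MP_361a6f_ag.FL.EQ

open Pool.Agent.Lib.MP_361a6f_ag.H3 Pool.Agent.Lib.MP_361a6f_ag.SQ

variable {k : Type u} [Field k] {k' : Type v} [Field k']

/-- Every algebraic correspondence of codimension `n = dim X'` acts on `H^1(X')` as a rational
multiple of an endomorphism of `X'`. -/
def ByEndo (W' : CohomologyData.{v, 0, w'} k' ℂ) (X' : Sch k') (n : ℕ) : Prop :=
  ∀ z, W'.IsAlg (X'.prod X') n z → ∃ (N : ℕ) (f : Sch.Mor X' X'), 0 < N ∧
    ∀ x, W'.Deg X' 1 x → W'.pb f x = W'.scal (N : ℂ) (act W' z x)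

/-- Either `F^*` has `2 n` different eigenvalues of absolute value `√q` on `H^1(X')`, or Tate's
theorem on the endomorphisms of `X'`, the Hodge index theorem for `X' × X'` and `θ`, and the
description of the correspondences by endomorphisms hold. -/
def Inputs (W' : CohomologyData.{v, 0, w'} k' ℂ) {X' : Sch k'} (n q : ℕ) (F : Sch.Mor X' X')
    (θ : W'.coh X') : Prop :=
  SimpleSpectrum W' n q F ∨ (Commutant W' n F ∧
    HodgeCodim W' (X'.prod X') (n + n) (W'.pb (X'.pr₁ X') θ + W'.pb (X'.pr₂ X') θ) 1 ∧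
    ByEndo W' X' n)

/-- The hypotheses: `X` is an abelian variety (a unital law and `H^0(X) = ℂ` are enough), `ξ` is a
divisor class of positive degree, `s` is a specialisation, `F` is (a power of) the Frobenius
endomorphism over the field with `q` elements: `F × ⋯ × F` multiplies the algebraic classes of
codimension `l` on the powers of `X'` by `q^l`, and the quotient of two different eigenvalues of
`F^*` on `H^1(X')` is not a root of unity. -/
structure Base {W : CohomologyData.{u, 0, w} k ℂ} (𝒱 : VarietyClass k)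
    {W' : CohomologyData.{v, 0, w'} k' ℂ} (𝒱' : VarietyClass k') (D : Data W W') : Prop where
  mem : 𝒱.mem D.X D.g
  conn : ∀ x, W.Deg D.X 0 x → ∃ c, x = W.scal c 1
  unital : Unital D.X
  div : PositiveDivisor W D.X D.g D.ξ
  mem' : 𝒱'.mem D.X' D.g
  spec : IsSpec W D.X W' D.X' D.s
  pos : 0 < D.q
  frob : ∀ P l z, W'.IsAlg (pw D.X' P) l z →
    W'.pb (pwMap D.F P) z = W'.scal ((D.q : ℂ) ^ l) z
  ratio : RatioFree W' D.F

end Pool.Agent.Lib.MP_361a6f_ag.FL.EQ

namespace Pool.Agent.Lib.MP_361a6f_ag.FL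

open Pool.Agent.Lib.MP_361a6f_ag.H3 Pool.Agent.Lib.MP_361a6f_ag.SQ

/-- The old hypotheses follow from the new ones. -/
def InputsStatement : Prop :=
  ∀ {k : Type u} [Field k] (W : CohomologyData.{u, 0, w} k ℂ) (𝒱 : VarietyClass k)
    (_ : IsWeilCohomology W 𝒱) {k' : Type v} [Field k'] (W' : CohomologyData.{v, 0, w'} k' ℂ)
    (𝒱' : VarietyClass k') (_ : IsWeilCohomology W' 𝒱') (D : EQ.Data W W'), EQ.Base 𝒱 𝒱' D →
    EQ.Inputs W' D.g D.q D.F (D.s (.leaf 0) D.ξ) →
      EQ.Hyp 𝒱 𝒱' D ∧ (EQ.Group D.X' → EQ.ByEndo W' D.X' D.g)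

end Pool.Agent.Lib.MP_361a6f_ag.FL
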