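import Pool.Agent.Lib.MP_361a6f_ag.H3.Corr
import Pool.Agent.Lib.MP_361a6f_ag.FL.Z.Mot

/-!
# Theorem PT0: push-forwards along projections
-/

open CategoryTheory AlgebraicGeometry MonoidalCategory CartesianMonoidalCategory

universe u w

set_option autoImplicit false

namespace Pool.Agent.Lib.MP_361a6f_ag.FL.PT0

open Pool.Agent.Lib.MP_361a6f_ag.H3

variable {k : Type u} [Field k] {W : CohomologyData.{u, 0, w} k ℂ} {𝒱 : VarietyClass k}
  (hW : IsWeilCohomology W 𝒱)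

include hW

/-- projection formula -/
theorem push_mul_pull {X Y : Sch k} {d e : ℕ} (hX : 𝒱.mem X d) (hY : 𝒱.mem Y e) (f : X ⟶ Y)
    (x : W.coh X) (y : W.coh Y) : W.push f (x * W.pull f y) = W.push f x * y := by
  rw [← sub_eq_zero]
  refine hW.duality hY _ fun z => ?_
  rw [sub_mul, map_sub, hW.push_adj hX hY, mul_assoc, ← map_mul, mul_assoc, hW.push_adj hX hY,
    sub_self]

theorem push_comp {X Y Z : Sch k} {d e f' : ℕ} (hX : 𝒱.mem X d) (hY : 𝒱.mem Y e)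
    (hZ : 𝒱.mem Z f') (f : X ⟶ Y) (h : Y ⟶ Z) (x : W.coh X) :
    W.push (f ≫ h) x = W.push h (W.push f x) := by
  rw [← sub_eq_zero]
  refine hW.duality hZ _ fun z => ?_
  rw [sub_mul, map_sub, hW.push_adj hX hZ, hW.push_adj hY hZ, hW.push_adj hX hY, W.pull_comp,
    sub_self]

theorem push_iso {X Y : Sch k} {d e : ℕ} (hX : 𝒱.mem X d) (hY : 𝒱.mem Y e) (f : X ≅ Y)
    (y : W.coh Y) : W.push f.hom (W.pull f.hom y) = y := by
  rw [← sub_eq_zero]
  refine hW.duality hY _ fun z => ?_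
  rw [sub_mul, map_sub, hW.push_adj hX hY, ← map_mul, hW.tr_iso hX hY, sub_self]

/-- base change for the projections -/
theorem pull_push {Z Z' C : Sch k} {d d' e : ℕ} (hZ : 𝒱.mem Z d) (hZ' : 𝒱.mem Z' d')
    (hC : 𝒱.mem C e) (h : Z' ⟶ Z) (x : W.coh (Z ⊗ C)) :
    W.pull h (W.push (fst Z C) x) = W.push (fst Z' C) (W.pull (h ▷ C) x) := by
  refine prod_induction hW hZ hC (P := fun x => W.pull h (W.push (fst Z C) x) =
    W.push (fst Z' C) (W.pull (h ▷ C) x)) x ?_ ?_ ?_ ?_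
  · intro z c
    rw [hW.push_fst hZ hC, map_smul, map_mul, ← W.pull_comp, ← W.pull_comp, whiskerRight_fst,
      whiskerRight_snd, W.pull_comp, hW.push_fst hZ' hC]
  · simp
  · intro a b ha hb
    rw [map_add, map_add, ha, hb, map_add, map_add]
  · intro c a ha
    rw [map_smul, map_smul, ha, map_smul, map_smul]

/-- the product of two push-forwards along projections -/
theorem push_mul_push {Z C C' : Sch k} {d e e' : ℕ} (hZ : 𝒱.mem Z d) (hC : 𝒱.mem C e)
    (hC' : 𝒱.mem C' e') {i : ℕ} {u : W.coh (Z ⊗ C)} (hu : u ∈ W.gr (Z ⊗ C) (2 * i))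
    (v : W.coh (Z ⊗ C')) :
    W.push (fst Z C) u * W.push (fst Z C') v = W.push (fst Z (C ⊗ C'))
      (W.pull (Z ◁ fst C C') u * W.pull (Z ◁ snd C C') v) := by
  have hZC := 𝒱.prod hZ hC
  have hZCC := 𝒱.prod hZC hC'
  have hCC := 𝒱.prod hC hC'
  have hZ2 := 𝒱.prod hZ hCC
  have e1 : W.push (fst Z C) u * W.push (fst Z C') v =
      W.push (fst Z C) (W.push (fst (Z ⊗ C) C') (W.pull (fst (Z ⊗ C) C') u *
        W.pull (fst Z C ▷ C') v)) := by
    rw [← push_mul_pull hW hZC hZ, pull_push hW hZ hZC hC']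
    congr 1
    rw [hW.even_comm hZC hu, ← push_mul_pull hW hZCC hZC,
      hW.even_comm hZCC (hW.pull_gr hZCC hZC _ hu)]
  rw [e1, ← push_comp hW hZCC hZC hZ]
  have e2 : fst (Z ⊗ C) C' ≫ fst Z C = (α_ Z C C').hom ≫ fst Z (C ⊗ C') := by simp
  have e3 : W.pull (fst (Z ⊗ C) C') u * W.pull (fst Z C ▷ C') v =
      W.pull (α_ Z C C').hom (W.pull (Z ◁ fst C C') u * W.pull (Z ◁ snd C C') v) := by
    rw [map_mul, ← W.pull_comp, ← W.pull_comp]
    congr 2
    · congr 1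
      ext <;> simp
    · congr 1
      ext <;> simp
  rw [e2, e3, push_comp hW hZCC hZ2 hZ, push_iso hW hZCC hZ2]

/-- iterated push-forward along projections -/
theorem push_push {A A' C : Sch k} {d e e' : ℕ} (hA : 𝒱.mem A d) (hA' : 𝒱.mem A' e)
    (hC : 𝒱.mem C e') (x : W.coh ((A ⊗ A') ⊗ C)) :
    W.push (fst A A') (W.push (fst (A ⊗ A') C) x) =
      W.push (fst A (A' ⊗ C)) (W.pull (α_ A A' C).inv x) := by
  have h1 := 𝒱.prod hA hA'
  have h2 := 𝒱.prod h1 hC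
  have h3 := 𝒱.prod hA (𝒱.prod hA' hC)
  rw [← push_comp hW h2 h1 hA]
  have e2 : fst (A ⊗ A') C ≫ fst A A' = (α_ A A' C).hom ≫ fst A (A' ⊗ C) := by simp
  have e3 : x = W.pull (α_ A A' C).hom (W.pull (α_ A A' C).inv x) := by
    rw [← W.pull_comp, Iso.hom_inv_id, W.pull_id]
  rw [e2, push_comp hW h2 h3 hA]
  congr 1
  conv_lhs => rw [e3]
  rw [push_iso hW h2 h3]

end Pool.Agent.Lib.MP_361a6f_ag.FL.PT0
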